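import Mathlib

/-!
The five integer polynomials of the certificate: they are monic, irreducible over `ℤ` and pairwise
coprime in `ℤ[X]` (so their pairwise resultants are `±1`).
-/

namespace Pool.Agent.R834.Med

open Polynomial

noncomputable def q1 : ℤ[X] := X ^ 2 - 3
noncomputable def q2 : ℤ[X] := X + 2
noncomputable def q3 : ℤ[X] := X ^ 4 - 6 * X ^ 2 - X + 7
noncomputable def q4 : ℤ[X] := X ^ 3 + X ^ 2 - 2 * X - 1
noncomputable def q5 : ℤ[X] := X ^ 5 - 7 * X ^ 3 - 2 * X ^ 2 + 8 * X - 1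

theorem cop12 : IsCoprime q1 q2 := ⟨1, -X + 2, by unfold q1 q2; ring⟩
theorem cop13 : IsCoprime q1 q3 := ⟨-X^3 + 2*X^2 + 3*X - 5, X - 2, by unfold q1 q3; ring⟩
theorem cop14 : IsCoprime q1 q4 := ⟨X^2 - X - 1, -X + 2, by unfold q1 q4; ring⟩
theorem cop15 : IsCoprime q1 q5 :=
  ⟨-4*X^4 + 7*X^3 + 16*X^2 - 20*X + 2, 4*X - 7, by unfold q1 q5; ring⟩
theorem cop23 : IsCoprime q2 q3 := ⟨-X^3 + 2*X^2 + 2*X - 3, 1, by unfold q2 q3; ring⟩
theorem cop24 : IsCoprime q2 q4 := ⟨X^2 - X, -1, by unfold q2 q4; ring⟩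
theorem cop25 : IsCoprime q2 q5 := ⟨X^4 - 2*X^3 - 3*X^2 + 4*X, -1, by unfold q2 q5; ring⟩
theorem cop34 : IsCoprime q3 q4 :=
  ⟨-2*X^2 + X + 1, 2*X^3 - 3*X^2 - 6*X + 6, by unfold q3 q4; ring⟩
theorem cop35 : IsCoprime q3 q5 :=
  ⟨13*X^4 - 24*X^3 - 47*X^2 + 61*X - 7, -13*X^3 + 24*X^2 + 34*X - 50, by unfold q3 q5; ring⟩
theorem cop45 : IsCoprime q4 q5 :=
  ⟨-5*X^4 + 9*X^3 + 19*X^2 - 24*X + 2, 5*X^2 - 4*X - 3, by unfold q4 q5; ring⟩

theorem deg1 : q1.natDegree = 2 := by unfold q1; compute_degree!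
theorem deg2 : q2.natDegree = 1 := by unfold q2; compute_degree!
theorem deg3 : q3.natDegree = 4 := by unfold q3; compute_degree!
theorem deg4 : q4.natDegree = 3 := by unfold q4; compute_degree!
theorem deg5 : q5.natDegree = 5 := by unfold q5; compute_degree!

theorem monic1 : q1.Monic := by unfold q1; monicity!
theorem monic2 : q2.Monic := by unfold q2; monicity!
theorem monic3 : q3.Monic := by unfold q3; monicity!
theorem monic4 : q4.Monic := by unfold q4; monicity!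
theorem monic5 : q5.Monic := by unfold q5; monicity!

end Pool.Agent.R834.Med
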