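import Mathlib
import Pool.Agent.R834.Med.Polys

/-!
Irreducibility over `ℤ` of the five polynomials (reduction modulo `2` or `5`).
-/

namespace Pool.Agent.R834.Med
open Polynomial

theorem coeff_top {R : Type*} [Semiring R] {f : R[X]} (hf : f.Monic) {k : ℕ}
    (h : f.natDegree = k) : f.coeff k = 1 := by
  subst h; exact hf

theorem irr_two4 (p : (ZMod 2)[X]) (hp : p.Monic) (hd : p.natDegree = 4)
    (h0 : p.coeff 0 = 1) (h1 : p.coeff 1 = 1) (h2 : p.coeff 2 = 0) (h3 : p.coeff 3 = 0) :
    Irreducible p := by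
  rw [hp.irreducible_iff_natDegree']
  refine ⟨fun h => by simp [h] at hd, fun f g hf hg hfg hdeg => ?_⟩
  rw [hd, Finset.mem_Ioc] at hdeg
  have hsum : f.natDegree + g.natDegree = 4 := by rw [← hf.natDegree_mul hg, hfg, hd]
  obtain h | h : g.natDegree = 1 ∨ g.natDegree = 2 := by omega
  · have hfd : f.natDegree = 3 := by omega
    have g1 : g.coeff 1 = 1 := coeff_top hg h
    have f3 : f.coeff 3 = 1 := coeff_top hf hfd
    have g2 : g.coeff 2 = 0 := coeff_eq_zero_of_natDegree_lt (by omega)
    have g3 : g.coeff 3 = 0 := coeff_eq_zero_of_natDegree_lt (by omega)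
    rw [← hfg, coeff_mul] at h0 h1 h2 h3
    simp only [Finset.Nat.antidiagonal_succ, Finset.Nat.antidiagonal_zero, Finset.map_singleton,
      Finset.sum_cons, Finset.sum_singleton, Finset.map_cons, Function.Embedding.prodMap,
      Function.Embedding.coeFn_mk, Prod.map] at h0 h1 h2 h3
    simp [g1, g2, g3, f3] at h0 h1 h2 h3
    generalize f.coeff 0 = a at *
    generalize f.coeff 1 = b at *
    generalize f.coeff 2 = c at *
    generalize g.coeff 0 = d at *
    clear f3 g1 g2 g3 hfd
    revert a b c d
    decide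
  · have hfd : f.natDegree = 2 := by omega
    have g2 : g.coeff 2 = 1 := coeff_top hg h
    have f2 : f.coeff 2 = 1 := coeff_top hf hfd
    have g3 : g.coeff 3 = 0 := coeff_eq_zero_of_natDegree_lt (by omega)
    have f3 : f.coeff 3 = 0 := coeff_eq_zero_of_natDegree_lt (by omega)
    rw [← hfg, coeff_mul] at h0 h1 h2 h3
    simp only [Finset.Nat.antidiagonal_succ, Finset.Nat.antidiagonal_zero, Finset.map_singleton,
      Finset.sum_cons, Finset.sum_singleton, Finset.map_cons, Function.Embedding.prodMap,
      Function.Embedding.coeFn_mk, Prod.map] at h0 h1 h2 h3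
    simp [g3, g2, f3, f2] at h0 h1 h2 h3
    generalize f.coeff 0 = a at *
    generalize f.coeff 1 = b at *
    generalize g.coeff 0 = c at *
    generalize g.coeff 1 = d at *
    clear f3 f2 g2 g3 hfd
    revert a b c d
    decide

theorem irr_two5 (p : (ZMod 2)[X]) (hp : p.Monic) (hd : p.natDegree = 5)
    (h0 : p.coeff 0 = 1) (h1 : p.coeff 1 = 0) (h2 : p.coeff 2 = 0) (h3 : p.coeff 3 = 1)
    (h4 : p.coeff 4 = 0) :
    Irreducible p := by
  rw [hp.irreducible_iff_natDegree']
  refine ⟨fun h => by simp [h] at hd, fun f g hf hg hfg hdeg => ?_⟩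
  rw [hd, Finset.mem_Ioc] at hdeg
  have hsum : f.natDegree + g.natDegree = 5 := by rw [← hf.natDegree_mul hg, hfg, hd]
  obtain h | h : g.natDegree = 1 ∨ g.natDegree = 2 := by omega
  · have hfd : f.natDegree = 4 := by omega
    have g1 : g.coeff 1 = 1 := coeff_top hg h
    have f4 : f.coeff 4 = 1 := coeff_top hf hfd
    have g2 : g.coeff 2 = 0 := coeff_eq_zero_of_natDegree_lt (by omega)
    have g3 : g.coeff 3 = 0 := coeff_eq_zero_of_natDegree_lt (by omega)
    have g4 : g.coeff 4 = 0 := coeff_eq_zero_of_natDegree_lt (by omega)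
    rw [← hfg, coeff_mul] at h0 h1 h2 h3 h4
    simp only [Finset.Nat.antidiagonal_succ, Finset.Nat.antidiagonal_zero, Finset.map_singleton,
      Finset.sum_cons, Finset.sum_singleton, Finset.map_cons, Function.Embedding.prodMap,
      Function.Embedding.coeFn_mk, Prod.map] at h0 h1 h2 h3 h4
    simp [g1, g2, g3, g4, f4] at h0 h1 h2 h3 h4
    generalize f.coeff 0 = a at *
    generalize f.coeff 1 = b at *
    generalize f.coeff 2 = c at *
    generalize f.coeff 3 = d at *
    generalize g.coeff 0 = e at *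
    clear f4 g1 g2 g3 g4 hfd
    revert a b c d e
    decide
  · have hfd : f.natDegree = 3 := by omega
    have g2 : g.coeff 2 = 1 := coeff_top hg h
    have f3 : f.coeff 3 = 1 := coeff_top hf hfd
    have g3 : g.coeff 3 = 0 := coeff_eq_zero_of_natDegree_lt (by omega)
    have g4 : g.coeff 4 = 0 := coeff_eq_zero_of_natDegree_lt (by omega)
    have f4 : f.coeff 4 = 0 := coeff_eq_zero_of_natDegree_lt (by omega)
    rw [← hfg, coeff_mul] at h0 h1 h2 h3 h4
    simp only [Finset.Nat.antidiagonal_succ, Finset.Nat.antidiagonal_zero, Finset.map_singleton,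
      Finset.sum_cons, Finset.sum_singleton, Finset.map_cons, Function.Embedding.prodMap,
      Function.Embedding.coeFn_mk, Prod.map] at h0 h1 h2 h3 h4
    simp [g3, g2, f3, f4, g4] at h0 h1 h2 h3 h4
    generalize f.coeff 0 = a at *
    generalize f.coeff 1 = b at *
    generalize f.coeff 2 = e at *
    generalize g.coeff 0 = c at *
    generalize g.coeff 1 = d at *
    have key : ∀ a b c d e : ZMod 2, a = 1 → c = 1 → e + d = 0 → a * d + b * c = 0 →
        b + (e * d + c) = 1 → a + (b * d + e * c) = 0 → False := by decide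
    exact key a b c d e h0.1 h0.2 h4 h1 h3 h2

theorem irr2 : Irreducible q2 := by
  have : q2 = X - C (-2) := by unfold q2; simp
  rw [this]; exact irreducible_X_sub_C _

instance fact5 : Fact (Nat.Prime 5) := ⟨by norm_num⟩

theorem irr1 : Irreducible q1 := by
  apply monic1.irreducible_of_irreducible_map (Int.castRingHom (ZMod 5))
  have hd : (q1.map (Int.castRingHom (ZMod 5))).natDegree = 2 := by
    rw [monic1.natDegree_map, deg1]
  apply irreducible_of_degree_le_three_of_not_isRoot
  · rw [hd]; decide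
  · intro x hx
    rw [IsRoot.def, eval_map, q1] at hx
    simp [eval₂_sub, eval₂_pow] at hx
    revert x; decide

theorem irr4 : Irreducible q4 := by
  apply monic4.irreducible_of_irreducible_map (Int.castRingHom (ZMod 2))
  have hd : (q4.map (Int.castRingHom (ZMod 2))).natDegree = 3 := by
    rw [monic4.natDegree_map, deg4]
  apply irreducible_of_degree_le_three_of_not_isRoot
  · rw [hd]; decide
  · intro x hx
    rw [IsRoot.def, eval_map, q4] at hx
    simp [eval₂_sub, eval₂_pow, eval₂_mul, eval₂_add] at hx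
    revert x; decide

theorem irr3 : Irreducible q3 := by
  apply monic3.irreducible_of_irreducible_map (Int.castRingHom (ZMod 2))
  have hd : (q3.map (Int.castRingHom (ZMod 2))).natDegree = 4 := by
    rw [monic3.natDegree_map, deg3]
  apply irr_two4 _ (monic3.map _) hd
  · rw [coeff_map, q3]; simp [coeff_X, coeff_X_pow, coeff_ofNat_mul]; rfl
  · rw [coeff_map, q3]; simp [coeff_X, coeff_X_pow, coeff_ofNat_mul]
  · rw [coeff_map, q3]; simp [coeff_X, coeff_X_pow, coeff_ofNat_mul]; rfl
  · rw [coeff_map, q3]; simp [coeff_X, coeff_X_pow, coeff_ofNat_mul]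

theorem irr5 : Irreducible q5 := by
  apply monic5.irreducible_of_irreducible_map (Int.castRingHom (ZMod 2))
  have hd : (q5.map (Int.castRingHom (ZMod 2))).natDegree = 5 := by
    rw [monic5.natDegree_map, deg5]
  apply irr_two5 _ (monic5.map _) hd
  · rw [coeff_map, q5]; simp [coeff_X, coeff_X_pow, coeff_ofNat_mul]
  · rw [coeff_map, q5]; simp [coeff_X, coeff_X_pow, coeff_ofNat_mul, coeff_one]; rfl
  · rw [coeff_map, q5]; simp [coeff_X, coeff_X_pow, coeff_ofNat_mul, coeff_one]; rfl
  · rw [coeff_map, q5]; simp [coeff_X, coeff_X_pow, coeff_ofNat_mul, coeff_one]; rfl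
  · rw [coeff_map, q5]; simp [coeff_X, coeff_X_pow, coeff_ofNat_mul, coeff_one]

end Pool.Agent.R834.Med
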