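import Mathlib
import Pool.Agent.R834.Med.Irred

/-!
Sums over the real roots of an integer polynomial: integrality of resultants gives
`∑ log |q(r)| ≥ 0`, with `log 0 = 0`.
-/

namespace Pool.Agent.R834.Med
open Polynomial

/-- The real version of an integer polynomial. -/
noncomputable abbrev toR (P : ℤ[X]) : ℝ[X] := P.map (Int.castRingHom ℝ)

theorem eval_toR (P : ℤ[X]) (r : ℝ) : (toR P).eval r = aeval r P := by
  rw [toR, eval_map, aeval_def]; rfl

theorem dvd_of_common_root {q P : ℤ[X]} (hq : q.Monic) (hirr : Irreducible q) {r : ℝ}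
    (hqr : (toR q).eval r = 0) (hPr : (toR P).eval r = 0) : q ∣ P := by
  rw [eval_toR] at hqr hPr
  have hint : IsIntegral ℤ r := ⟨q, hq, by rw [← aeval_def]; exact hqr⟩
  have h1 : minpoly ℤ r ∣ q := minpoly.isIntegrallyClosed_dvd hint hqr
  have h2 : minpoly ℤ r ∣ P := minpoly.isIntegrallyClosed_dvd hint hPr
  obtain ⟨c, hc⟩ := h1
  rcases hirr.isUnit_or_isUnit hc with h | h
  · exact absurd h (minpoly.not_isUnit ℤ r)
  · obtain ⟨u, hu⟩ := h
    refine dvd_trans ?_ h2
    refine ⟨(↑u⁻¹ : ℤ[X]), ?_⟩
    rw [hc, ← hu, mul_assoc, Units.mul_inv, mul_one]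

theorem log_multiset (f : ℝ → ℝ) (s : Multiset ℝ) (h : ∀ x ∈ s, f x ≠ 0) :
    (s.map (fun x => Real.log (f x))).sum = Real.log (s.map f).prod := by
  induction s using Multiset.induction_on with
  | empty => simp
  | cons a s ih =>
    have h1 : ∀ x ∈ s, f x ≠ 0 := fun x hx => h x (Multiset.mem_cons_of_mem hx)
    rw [Multiset.map_cons, Multiset.sum_cons, ih h1, Multiset.map_cons, Multiset.prod_cons,
      Real.log_mul (h a (Multiset.mem_cons_self a s))]
    rw [Ne, Multiset.prod_eq_zero_iff]
    intro h0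
    obtain ⟨x, hx, hx0⟩ := Multiset.mem_map.mp h0
    exact h1 x hx hx0

theorem prod_eval_eq (P q : ℤ[X]) (hP : P.Monic) (hs : (toR P).Splits) :
    ((toR P).roots.map (toR q).eval).prod = ((resultant P q : ℤ) : ℝ) := by
  have h1 := resultant_eq_prod_eval (toR P) (toR q) q.natDegree natDegree_map_le hs
  rw [(hP.map _).leadingCoeff, one_pow, one_mul, hP.natDegree_map, toR, toR,
    resultant_map_map] at h1
  rw [← h1]; rfl

theorem logsum_nonneg_of_ne (P q : ℤ[X]) (hP : P.Monic) (hs : (toR P).Splits)
    (h : ∀ r ∈ (toR P).roots, (toR q).eval r ≠ 0) :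
    0 ≤ ((toR P).roots.map (fun r => Real.log ((toR q).eval r))).sum := by
  rw [log_multiset _ _ h, prod_eval_eq P q hP hs]
  have hne : (resultant P q : ℤ) ≠ 0 := by
    intro h0
    have h1 := prod_eval_eq P q hP hs
    rw [h0, Int.cast_zero, Multiset.prod_eq_zero_iff] at h1
    obtain ⟨x, hx, hx0⟩ := Multiset.mem_map.mp h1
    exact h x hx hx0
  rw [← Real.log_abs]
  apply Real.log_nonneg
  rw [← Int.cast_abs]
  exact_mod_cast Int.one_le_abs hne

theorem logsum_eq_zero (P q : ℤ[X]) (hP : P.Monic) (hs : (toR P).Splits)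
    (hc : IsCoprime P q) :
    ((toR P).roots.map (fun r => Real.log ((toR q).eval r))).sum = 0 := by
  have hu : IsUnit (resultant P q) := (isUnit_resultant_iff_isCoprime hP).mpr hc
  have h : ∀ r ∈ (toR P).roots, (toR q).eval r ≠ 0 := by
    intro r hr h0
    have hr0 : (toR P).eval r = 0 := (mem_roots'.mp hr).2
    obtain ⟨a, b, hab⟩ := hc
    have := congrArg (fun F : ℤ[X] => (toR F).eval r) hab
    simp only [toR, Polynomial.map_add, Polynomial.map_mul, eval_add, eval_mul,
      Polynomial.map_one, eval_one] at this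
    rw [show (map (Int.castRingHom ℝ) P).eval r = 0 from hr0,
      show (map (Int.castRingHom ℝ) q).eval r = 0 from h0] at this
    simp at this
  rw [log_multiset _ _ h, prod_eval_eq P q hP hs]
  rcases Int.isUnit_iff.mp hu with h1 | h1
  · rw [h1]; simp
  · rw [h1]; simp

theorem logsum_nonneg (q : ℤ[X]) (hq : q.Monic) (hirr : Irreducible q) :
    ∀ (n : ℕ) (P : ℤ[X]), P.natDegree = n → P.Monic → (toR P).Splits →
    0 ≤ ((toR P).roots.map (fun r => Real.log ((toR q).eval r))).sum := by
  intro n
  induction n using Nat.strong_induction_on with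
  | _ n ih =>
    intro P hn hP hs
    by_cases hd : q ∣ P
    · obtain ⟨P', rfl⟩ := hd
      have hP' : P'.Monic := hq.of_mul_monic_left hP
      have hq0 : 0 < q.natDegree := by
        by_contra h0
        have h0' : q.natDegree = 0 := by omega
        have := hq.natDegree_eq_zero.mp h0'
        rw [this] at hirr
        exact hirr.not_isUnit isUnit_one
      have hdeg : P'.natDegree < n := by
        rw [← hn, hq.natDegree_mul hP']; omega
      have hmul : toR (q * P') = toR q * toR P' := by simp [toR, Polynomial.map_mul]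
      have hne : toR q * toR P' ≠ 0 := ((hq.map _).mul (hP'.map _)).ne_zero
      have hs' : (toR P').Splits := by
        rw [hmul] at hs
        exact (splits_mul (hq.map _).ne_zero (hP'.map _).ne_zero).mp hs |>.2
      rw [hmul, roots_mul hne, Multiset.map_add, Multiset.sum_add]
      have h0 : ((toR q).roots.map (fun r => Real.log ((toR q).eval r))).sum = 0 := by
        apply Multiset.sum_eq_zero
        intro x hx
        obtain ⟨r, hr, rfl⟩ := Multiset.mem_map.mp hx
        rw [show (toR q).eval r = 0 from (mem_roots'.mp hr).2, Real.log_zero]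
      rw [h0, zero_add]
      exact ih _ hdeg P' rfl hP' hs'
    · apply logsum_nonneg_of_ne P q hP hs
      intro r hr h0
      exact hd (dvd_of_common_root hq hirr h0 (mem_roots'.mp hr).2)

theorem natDegree_pos_of_irred {q : ℤ[X]} (hq : q.Monic) (hirr : Irreducible q) :
    0 < q.natDegree := by
  by_contra h0
  have h0' : q.natDegree = 0 := by omega
  have := hq.natDegree_eq_zero.mp h0'
  rw [this] at hirr
  exact hirr.not_isUnit isUnit_one

/-- If `D ≥ 0` off the roots of the polynomials in `Q`, and the `D`-sum over the roots of each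
polynomial of `Q` is nonnegative, then the `D`-sum over the roots of every totally real monic
integer polynomial (with roots in `[-4,4]`) is nonnegative. -/
theorem dsum_nonneg (D : ℝ → ℝ) (Q : Set ℤ[X]) (hQm : ∀ q ∈ Q, q.Monic)
    (hQi : ∀ q ∈ Q, Irreducible q)
    (hQs : ∀ q ∈ Q, 0 ≤ ((toR q).roots.map D).sum)
    (hD : ∀ x : ℝ, |x| ≤ 4 → (∀ q ∈ Q, (toR q).eval x ≠ 0) → 0 ≤ D x) :
    ∀ (n : ℕ) (P : ℤ[X]), P.natDegree = n → P.Monic → (toR P).Splits →
    (∀ r ∈ (toR P).roots, |r| ≤ 4) →
    0 ≤ ((toR P).roots.map D).sum := by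
  intro n
  induction n using Nat.strong_induction_on with
  | _ n ih =>
    intro P hn hP hs hr4
    by_cases hd : ∃ q ∈ Q, q ∣ P
    · obtain ⟨q, hqQ, P', rfl⟩ := hd
      have hq := hQm q hqQ
      have hP' : P'.Monic := hq.of_mul_monic_left hP
      have hq0 := natDegree_pos_of_irred hq (hQi q hqQ)
      have hdeg : P'.natDegree < n := by
        rw [← hn, hq.natDegree_mul hP']; omega
      have hmul : toR (q * P') = toR q * toR P' := by simp [toR, Polynomial.map_mul]
      have hne : toR q * toR P' ≠ 0 := ((hq.map _).mul (hP'.map _)).ne_zero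
      have hs' : (toR P').Splits := by
        rw [hmul] at hs
        exact (splits_mul (hq.map _).ne_zero (hP'.map _).ne_zero).mp hs |>.2
      rw [hmul, roots_mul hne] at hr4 ⊢
      rw [Multiset.map_add, Multiset.sum_add]
      exact add_nonneg (hQs q hqQ)
        (ih _ hdeg P' rfl hP' hs' (fun r hr => hr4 r (Multiset.mem_add.mpr (Or.inr hr))))
    · apply Multiset.sum_nonneg
      intro x hx
      obtain ⟨r, hr, rfl⟩ := Multiset.mem_map.mp hx
      apply hD r (hr4 r hr)
      intro q hqQ h0
      exact hd ⟨q, hqQ, dvd_of_common_root (hQm q hqQ) (hQi q hqQ) h0 (mem_roots'.mp hr).2⟩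

end Pool.Agent.R834.Med
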