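import Mathlib
import Pool.Agent.R834.Med.Arith

/-!
Real roots of the five polynomials, with rational enclosures, and the tangent-line bound for the
logarithm of a totally real polynomial.
-/

namespace Pool.Agent.R834.Med
open Polynomial

theorem ev1 (x : ℝ) : (toR q1).eval x = x ^ 2 - 3 := by simp [toR, q1]
theorem ev2 (x : ℝ) : (toR q2).eval x = x + 2 := by simp [toR, q2]
theorem ev3 (x : ℝ) : (toR q3).eval x = x ^ 4 - 6 * x ^ 2 - x + 7 := by simp [toR, q3]
theorem ev4 (x : ℝ) : (toR q4).eval x = x ^ 3 + x ^ 2 - 2 * x - 1 := by simp [toR, q4]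
theorem ev5 (x : ℝ) : (toR q5).eval x = x ^ 5 - 7 * x ^ 3 - 2 * x ^ 2 + 8 * x - 1 := by
  simp [toR, q5]

theorem dv1 (x : ℝ) : (toR q1).derivative.eval x = 2 * x := by
  simp [toR, q1]; norm_num
theorem dv2 (x : ℝ) : (toR q2).derivative.eval x = 1 := by simp [toR, q2]
theorem dv3 (x : ℝ) : (toR q3).derivative.eval x = 4 * x ^ 3 - 12 * x - 1 := by
  simp [toR, q3]; ring
theorem dv4 (x : ℝ) : (toR q4).derivative.eval x = 3 * x ^ 2 + 2 * x - 2 := by
  simp [toR, q4]; ring
theorem dv5 (x : ℝ) : (toR q5).derivative.eval x = 5 * x ^ 4 - 21 * x ^ 2 - 4 * x + 8 := by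
  simp [toR, q5]; ring

/-- A sign change gives a root. -/
theorem exists_root (p : ℝ[X]) (u v : ℝ) (huv : u < v) (h : p.eval u * p.eval v < 0) :
    ∃ r, u < r ∧ r < v ∧ p.eval r = 0 := by
  have hc : ContinuousOn (fun x => p.eval x) (Set.Icc u v) := p.continuous.continuousOn
  have hu : p.eval u ≠ 0 := fun h0 => by rw [h0, zero_mul] at h; exact lt_irrefl _ h
  have hv : p.eval v ≠ 0 := fun h0 => by rw [h0, mul_zero] at h; exact lt_irrefl _ h
  obtain ⟨r, hr, hr0⟩ : ∃ r ∈ Set.Icc u v, p.eval r = 0 := by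
    rcases lt_or_gt_of_ne hu with h1 | h1
    · have h2 : 0 < p.eval v := by
        by_contra h3
        have : p.eval v < 0 := lt_of_le_of_ne (not_lt.mp h3) hv
        exact absurd h (not_lt.mpr (mul_pos_of_neg_of_neg h1 this).le)
      have := intermediate_value_Icc huv.le hc
      obtain ⟨r, hr, hr0⟩ := this ⟨h1.le, h2.le⟩
      exact ⟨r, hr, hr0⟩
    · have h2 : p.eval v < 0 := by
        by_contra h3
        have : 0 < p.eval v := lt_of_le_of_ne (not_lt.mp h3) (Ne.symm hv)
        exact absurd h (not_lt.mpr (mul_pos h1 this).le)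
      have := intermediate_value_Icc' huv.le hc
      obtain ⟨r, hr, hr0⟩ := this ⟨h2.le, h1.le⟩
      exact ⟨r, hr, hr0⟩
  refine ⟨r, lt_of_le_of_ne hr.1 ?_, lt_of_le_of_ne hr.2 ?_, hr0⟩
  · rintro rfl; exact hu hr0
  · rintro rfl; exact hv hr0

theorem roots_eq (q : ℤ[X]) (hq : q.Monic) (l : List ℝ) (hl : l.Pairwise (· < ·))
    (hr : ∀ x ∈ l, (toR q).eval x = 0) (hd : q.natDegree = l.length) :
    (toR q).roots = (l : Multiset ℝ) ∧ (toR q).Splits := by
  have hne : toR q ≠ 0 := (hq.map _).ne_zero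
  have hnd : (l : Multiset ℝ).Nodup := by
    rw [Multiset.coe_nodup]
    exact hl.imp (fun h => ne_of_lt h)
  have hle : (l : Multiset ℝ) ≤ (toR q).roots := by
    rw [Multiset.le_iff_subset hnd]
    intro x hx
    rw [mem_roots hne]
    exact hr x (by simpa using hx)
  have hcard : Multiset.card (toR q).roots ≤ Multiset.card (l : Multiset ℝ) := by
    rw [Multiset.coe_card, ← hd, ← hq.natDegree_map (Int.castRingHom ℝ)]
    exact card_roots' _
  have he := Multiset.eq_of_le_of_card_le hle hcard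
  refine ⟨he.symm, ?_⟩
  rw [splits_iff_card_roots, ← he, Multiset.coe_card, ← hd, hq.natDegree_map]

theorem log_tangent_one {r x x0 : ℝ} (h : 0 < (x - r) * (x0 - r)) :
    Real.log (x - r) ≤ Real.log (x0 - r) + (x - x0) * (1 / (x0 - r)) := by
  have h0 : x0 - r ≠ 0 := fun h0 => by rw [h0, mul_zero] at h; exact lt_irrefl _ h
  have h1 : x - r ≠ 0 := fun h0 => by rw [h0, zero_mul] at h; exact lt_irrefl _ h
  have hpos : 0 < (x - r) / (x0 - r) := by
    rw [div_eq_mul_inv]
    have : (x - r) * (x0 - r)⁻¹ = ((x - r) * (x0 - r)) * ((x0 - r)⁻¹) ^ 2 := by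
      field_simp
    rw [this]
    exact mul_pos h (by positivity)
  have h2 := Real.log_le_sub_one_of_pos hpos
  rw [Real.log_div h1 h0] at h2
  have h3 : (x - r) / (x0 - r) - 1 = (x - x0) * (1 / (x0 - r)) := by field_simp; ring
  linarith

theorem log_tangent (q : ℤ[X]) (hq : q.Monic) (hs : (toR q).Splits) (x x0 : ℝ)
    (h : ∀ r ∈ (toR q).roots, 0 < (x - r) * (x0 - r)) :
    Real.log ((toR q).eval x) ≤ Real.log ((toR q).eval x0) +
      (x - x0) * ((toR q).derivative.eval x0 / (toR q).eval x0) := by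
  have hx0 : (toR q).eval x0 ≠ 0 := by
    intro h0
    have hm : x0 ∈ (toR q).roots := by rw [mem_roots (hq.map _).ne_zero]; exact h0
    have := h x0 hm
    simp at this
  rw [hs.eval_derivative_div_eval_of_ne_zero hx0, hs.eval_eq_prod_roots,
    hs.eval_eq_prod_roots, (hq.map _).leadingCoeff, one_mul, one_mul]
  have key : ∀ s : Multiset ℝ, (∀ r ∈ s, 0 < (x - r) * (x0 - r)) →
      Real.log (s.map (fun a => x - a)).prod ≤ Real.log (s.map (fun a => x0 - a)).prod +
        (x - x0) * (s.map (fun z => 1 / (x0 - z))).sum := by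
    intro s hsr
    have e1 := log_multiset (fun a => x - a) s (fun r hr h0 => by
      have := hsr r hr
      rw [show x - r = 0 from h0, zero_mul] at this; exact lt_irrefl _ this)
    have e2 := log_multiset (fun a => x0 - a) s (fun r hr h0 => by
      have := hsr r hr
      rw [show x0 - r = 0 from h0, mul_zero] at this; exact lt_irrefl _ this)
    rw [← e1, ← e2, ← Multiset.sum_map_mul_left, ← Multiset.sum_map_add]
    apply Multiset.sum_map_le_sum_map
    intro r hr
    exact log_tangent_one (hsr r hr)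
  exact key _ h

end Pool.Agent.R834.Med
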