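import Mathlib
import Pool.Agent.R834.Med.Roots

/-!
The roots of the five polynomials with rational enclosures, packaged in a structure, and the
tangent-line bounds in terms of them.
-/

namespace Pool.Agent.R834.Med
open Polynomial

/-- The real roots of the five polynomials, with enclosures. -/
structure RD where
  s : ℝ
  c1 : ℝ
  c2 : ℝ
  c3 : ℝ
  c4 : ℝ
  b1 : ℝ
  b2 : ℝ
  b3 : ℝ
  e1 : ℝ
  e2 : ℝ
  e3 : ℝ
  e4 : ℝ
  e5 : ℝ
  hs : s = √3
  ls : 1.7320 < s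
  us : s < 1.7321
  lc1 : (-1.8430 : ℝ) < c1
  uc1 : c1 < (-1.8429 : ℝ)
  lc2 : (-1.5187 : ℝ) < c2
  uc2 : c2 < (-1.5186 : ℝ)
  lc3 : (1.1117 : ℝ) < c3
  uc3 : c3 < (1.1118 : ℝ)
  lc4 : (2.2497 : ℝ) < c4
  uc4 : c4 < (2.2498 : ℝ)
  lb1 : (-1.8020 : ℝ) < b1
  ub1 : b1 < (-1.8019 : ℝ)
  lb2 : (-0.4451 : ℝ) < b2
  ub2 : b2 < (-0.4450 : ℝ)
  lb3 : (1.2469 : ℝ) < b3
  ub3 : b3 < (1.2470 : ℝ)
  le1 : (-1.8530 : ℝ) < e1
  ue1 : e1 < (-1.8529 : ℝ)
  le2 : (-1.7601 : ℝ) < e2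
  ue2 : e2 < (-1.7600 : ℝ)
  le3 : (0.1312 : ℝ) < e3
  ue3 : e3 < (0.1313 : ℝ)
  le4 : (0.9071 : ℝ) < e4
  ue4 : e4 < (0.9072 : ℝ)
  le5 : (2.5745 : ℝ) < e5
  ue5 : e5 < (2.5746 : ℝ)
  r1 : (toR q1).roots = (([-s, s] : List ℝ) : Multiset ℝ)
  r2 : (toR q2).roots = (([-2] : List ℝ) : Multiset ℝ)
  r3 : (toR q3).roots = (([c1, c2, c3, c4] : List ℝ) : Multiset ℝ)
  r4 : (toR q4).roots = (([b1, b2, b3] : List ℝ) : Multiset ℝ)
  r5 : (toR q5).roots = (([e1, e2, e3, e4, e5] : List ℝ) : Multiset ℝ)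
  s1 : (toR q1).Splits
  s2 : (toR q2).Splits
  s3 : (toR q3).Splits
  s4 : (toR q4).Splits
  s5 : (toR q5).Splits

theorem exists_RD : Nonempty RD := by
  have hs0 : (√3 : ℝ) ^ 2 = 3 := Real.sq_sqrt (by norm_num)
  have hsp : (0 : ℝ) ≤ √3 := Real.sqrt_nonneg 3
  have hl : (1.7320 : ℝ) < √3 := by
    rw [Real.lt_sqrt (by norm_num)]; norm_num
  have hu : (√3 : ℝ) < 1.7321 := by
    rw [Real.sqrt_lt' (by norm_num)]; norm_num
  obtain ⟨c1, lc1, uc1, zc1⟩ := exists_root (toR q3) (-1.8430) (-1.8429) (by norm_num)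
    (by rw [ev3, ev3]; norm_num)
  obtain ⟨c2, lc2, uc2, zc2⟩ := exists_root (toR q3) (-1.5187) (-1.5186) (by norm_num)
    (by rw [ev3, ev3]; norm_num)
  obtain ⟨c3, lc3, uc3, zc3⟩ := exists_root (toR q3) (1.1117) (1.1118) (by norm_num)
    (by rw [ev3, ev3]; norm_num)
  obtain ⟨c4, lc4, uc4, zc4⟩ := exists_root (toR q3) (2.2497) (2.2498) (by norm_num)
    (by rw [ev3, ev3]; norm_num)
  obtain ⟨b1, lb1, ub1, zb1⟩ := exists_root (toR q4) (-1.8020) (-1.8019) (by norm_num)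
    (by rw [ev4, ev4]; norm_num)
  obtain ⟨b2, lb2, ub2, zb2⟩ := exists_root (toR q4) (-0.4451) (-0.4450) (by norm_num)
    (by rw [ev4, ev4]; norm_num)
  obtain ⟨b3, lb3, ub3, zb3⟩ := exists_root (toR q4) (1.2469) (1.2470) (by norm_num)
    (by rw [ev4, ev4]; norm_num)
  obtain ⟨e1, le1, ue1, ze1⟩ := exists_root (toR q5) (-1.8530) (-1.8529) (by norm_num)
    (by rw [ev5, ev5]; norm_num)
  obtain ⟨e2, le2, ue2, ze2⟩ := exists_root (toR q5) (-1.7601) (-1.7600) (by norm_num)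
    (by rw [ev5, ev5]; norm_num)
  obtain ⟨e3, le3, ue3, ze3⟩ := exists_root (toR q5) (0.1312) (0.1313) (by norm_num)
    (by rw [ev5, ev5]; norm_num)
  obtain ⟨e4, le4, ue4, ze4⟩ := exists_root (toR q5) (0.9071) (0.9072) (by norm_num)
    (by rw [ev5, ev5]; norm_num)
  obtain ⟨e5, le5, ue5, ze5⟩ := exists_root (toR q5) (2.5745) (2.5746) (by norm_num)
    (by rw [ev5, ev5]; norm_num)
  obtain ⟨R1, S1⟩ := roots_eq q1 monic1 [-√3, √3]
    (by simp only [List.pairwise_cons, List.mem_cons, List.not_mem_nil, or_false,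
          forall_eq, List.Pairwise.nil, and_true, false_implies, implies_true]; linarith)
    (by
      intro x hx
      simp only [List.mem_cons, List.not_mem_nil, or_false] at hx
      rcases hx with rfl | rfl
      · rw [ev1, neg_sq, hs0]; norm_num
      · rw [ev1, hs0]; norm_num)
    (by rw [deg1]; rfl)
  obtain ⟨R2, S2⟩ := roots_eq q2 monic2 [-2]
    (by simp)
    (by
      intro x hx
      simp only [List.mem_cons, List.not_mem_nil, or_false] at hx
      rw [hx, ev2]; norm_num)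
    (by rw [deg2]; rfl)
  obtain ⟨R3, S3⟩ := roots_eq q3 monic3 [c1, c2, c3, c4]
    (by
      simp only [List.pairwise_cons, List.mem_cons, List.not_mem_nil, or_false,
        forall_eq_or_imp, forall_eq, List.Pairwise.nil, and_true, false_implies, implies_true]
      refine ⟨?_, ?_, ?_⟩ <;> (try constructor) <;> (try constructor) <;> (try constructor) <;> linarith)
    (by
      intro x hx
      simp only [List.mem_cons, List.not_mem_nil, or_false] at hx
      rcases hx with rfl | rfl | rfl | rfl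
      · exact zc1
      · exact zc2
      · exact zc3
      · exact zc4)
    (by rw [deg3]; rfl)
  obtain ⟨R4, S4⟩ := roots_eq q4 monic4 [b1, b2, b3]
    (by
      simp only [List.pairwise_cons, List.mem_cons, List.not_mem_nil, or_false,
        forall_eq_or_imp, forall_eq, List.Pairwise.nil, and_true, false_implies, implies_true]
      refine ⟨?_, ?_⟩ <;> (try constructor) <;> (try constructor) <;> (try constructor) <;> linarith)
    (by
      intro x hx
      simp only [List.mem_cons, List.not_mem_nil, or_false] at hx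
      rcases hx with rfl | rfl | rfl
      · exact zb1
      · exact zb2
      · exact zb3)
    (by rw [deg4]; rfl)
  obtain ⟨R5, S5⟩ := roots_eq q5 monic5 [e1, e2, e3, e4, e5]
    (by
      simp only [List.pairwise_cons, List.mem_cons, List.not_mem_nil, or_false,
        forall_eq_or_imp, forall_eq, List.Pairwise.nil, and_true, false_implies, implies_true]
      refine ⟨?_, ?_, ?_, ?_⟩ <;> (try constructor) <;> (try constructor) <;> (try constructor) <;> linarith)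
    (by
      intro x hx
      simp only [List.mem_cons, List.not_mem_nil, or_false] at hx
      rcases hx with rfl | rfl | rfl | rfl | rfl
      · exact ze1
      · exact ze2
      · exact ze3
      · exact ze4
      · exact ze5)
    (by rw [deg5]; rfl)
  exact ⟨⟨√3, c1, c2, c3, c4, b1, b2, b3, e1, e2, e3, e4, e5, rfl, hl, hu,
    lc1, uc1, lc2, uc2, lc3, uc3, lc4, uc4, lb1, ub1, lb2, ub2, lb3, ub3, le1, ue1, le2, ue2, le3, ue3, le4, ue4, le5, ue5,
    R1, R2, R3, R4, R5, S1, S2, S3, S4, S5⟩⟩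

theorem RD.t1 (R : RD) (x x0 : ℝ)
    (h0 : 0 < (x - -R.s) * (x0 - -R.s))
    (h1 : 0 < (x - R.s) * (x0 - R.s)) :
    Real.log (x ^ 2 - 3) ≤ Real.log (x0 ^ 2 - 3) + (x - x0) * ((2 * x0) / (x0 ^ 2 - 3)) := by
  have h := log_tangent q1 monic1 R.s1 x x0 (by
    rw [R.r1]
    intro r hr
    simp only [Multiset.mem_coe, List.mem_cons, List.not_mem_nil, or_false] at hr
    rcases hr with rfl | rfl
    · exact h0
    · exact h1)
  rw [ev1, ev1, dv1] at h
  exact h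

theorem RD.t2 (R : RD) (x x0 : ℝ)
    (h0 : 0 < (x - -2) * (x0 - -2)) :
    Real.log (x + 2) ≤ Real.log (x0 + 2) + (x - x0) * ((1) / (x0 + 2)) := by
  have h := log_tangent q2 monic2 R.s2 x x0 (by
    rw [R.r2]
    intro r hr
    simp only [Multiset.mem_coe, List.mem_cons, List.not_mem_nil, or_false] at hr
    rw [hr]; exact h0)
  rw [ev2, ev2, dv2] at h
  exact h

theorem RD.t3 (R : RD) (x x0 : ℝ)
    (h0 : 0 < (x - R.c1) * (x0 - R.c1))
    (h1 : 0 < (x - R.c2) * (x0 - R.c2))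
    (h2 : 0 < (x - R.c3) * (x0 - R.c3))
    (h3 : 0 < (x - R.c4) * (x0 - R.c4)) :
    Real.log (x ^ 4 - 6 * x ^ 2 - x + 7) ≤ Real.log (x0 ^ 4 - 6 * x0 ^ 2 - x0 + 7) + (x - x0) * ((4 * x0 ^ 3 - 12 * x0 - 1) / (x0 ^ 4 - 6 * x0 ^ 2 - x0 + 7)) := by
  have h := log_tangent q3 monic3 R.s3 x x0 (by
    rw [R.r3]
    intro r hr
    simp only [Multiset.mem_coe, List.mem_cons, List.not_mem_nil, or_false] at hr
    rcases hr with rfl | rfl | rfl | rfl
    · exact h0
    · exact h1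
    · exact h2
    · exact h3)
  rw [ev3, ev3, dv3] at h
  exact h

theorem RD.t4 (R : RD) (x x0 : ℝ)
    (h0 : 0 < (x - R.b1) * (x0 - R.b1))
    (h1 : 0 < (x - R.b2) * (x0 - R.b2))
    (h2 : 0 < (x - R.b3) * (x0 - R.b3)) :
    Real.log (x ^ 3 + x ^ 2 - 2 * x - 1) ≤ Real.log (x0 ^ 3 + x0 ^ 2 - 2 * x0 - 1) + (x - x0) * ((3 * x0 ^ 2 + 2 * x0 - 2) / (x0 ^ 3 + x0 ^ 2 - 2 * x0 - 1)) := by
  have h := log_tangent q4 monic4 R.s4 x x0 (by
    rw [R.r4]
    intro r hr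
    simp only [Multiset.mem_coe, List.mem_cons, List.not_mem_nil, or_false] at hr
    rcases hr with rfl | rfl | rfl
    · exact h0
    · exact h1
    · exact h2)
  rw [ev4, ev4, dv4] at h
  exact h

theorem RD.t5 (R : RD) (x x0 : ℝ)
    (h0 : 0 < (x - R.e1) * (x0 - R.e1))
    (h1 : 0 < (x - R.e2) * (x0 - R.e2))
    (h2 : 0 < (x - R.e3) * (x0 - R.e3))
    (h3 : 0 < (x - R.e4) * (x0 - R.e4))
    (h4 : 0 < (x - R.e5) * (x0 - R.e5)) :
    Real.log (x ^ 5 - 7 * x ^ 3 - 2 * x ^ 2 + 8 * x - 1) ≤ Real.log (x0 ^ 5 - 7 * x0 ^ 3 - 2 * x0 ^ 2 + 8 * x0 - 1) + (x - x0) * ((5 * x0 ^ 4 - 21 * x0 ^ 2 - 4 * x0 + 8) / (x0 ^ 5 - 7 * x0 ^ 3 - 2 * x0 ^ 2 + 8 * x0 - 1)) := by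
  have h := log_tangent q5 monic5 R.s5 x x0 (by
    rw [R.r5]
    intro r hr
    simp only [Multiset.mem_coe, List.mem_cons, List.not_mem_nil, or_false] at hr
    rcases hr with rfl | rfl | rfl | rfl | rfl
    · exact h0
    · exact h1
    · exact h2
    · exact h3
    · exact h4)
  rw [ev5, ev5, dv5] at h
  exact h

end Pool.Agent.R834.Med
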