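import Mathlib
import Pool.Agent.R834.Med.Data

/-!
The auxiliary function `G` and the generic bound on a root-free interval.
-/

namespace Pool.Agent.R834.Med
open Polynomial

/-- The polynomial part of the auxiliary function. -/
noncomputable def pol (x : ℝ) : ℝ := 3 * x ^ 4 - 133 * x ^ 2 + 333 * x + 448

/-- The auxiliary function. -/
noncomputable def G (x : ℝ) : ℝ :=
  pol x + 52 * Real.log (x ^ 2 - 3) + 10 * Real.log (x + 2)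
    + 8 * Real.log (x ^ 4 - 6 * x ^ 2 - x + 7) + 10 * Real.log (x ^ 3 + x ^ 2 - 2 * x - 1)
    + 6 * Real.log (x ^ 5 - 7 * x ^ 3 - 2 * x ^ 2 + 8 * x - 1)

/-- All the conditions saying that `x` and `x0` lie on the same side of every root. -/
structure Same (R : RD) (x x0 : ℝ) : Prop where
  a1 : 0 < (x - (-R.s)) * (x0 - (-R.s))
  a2 : 0 < (x - R.s) * (x0 - R.s)
  a3 : 0 < (x - (-2)) * (x0 - (-2))
  k1 : 0 < (x - R.c1) * (x0 - R.c1)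
  k2 : 0 < (x - R.c2) * (x0 - R.c2)
  k3 : 0 < (x - R.c3) * (x0 - R.c3)
  k4 : 0 < (x - R.c4) * (x0 - R.c4)
  m1 : 0 < (x - R.b1) * (x0 - R.b1)
  m2 : 0 < (x - R.b2) * (x0 - R.b2)
  m3 : 0 < (x - R.b3) * (x0 - R.b3)
  n1 : 0 < (x - R.e1) * (x0 - R.e1)
  n2 : 0 < (x - R.e2) * (x0 - R.e2)
  n3 : 0 < (x - R.e3) * (x0 - R.e3)
  n4 : 0 < (x - R.e4) * (x0 - R.e4)
  n5 : 0 < (x - R.e5) * (x0 - R.e5)

theorem region (R : RD) (x x0 C c : ℝ) (h : Same R x x0)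
    (hC : 52 * Real.log (x0 ^ 2 - 3) + 10 * Real.log (x0 + 2)
      + 8 * Real.log (x0 ^ 4 - 6 * x0 ^ 2 - x0 + 7)
      + 10 * Real.log (x0 ^ 3 + x0 ^ 2 - 2 * x0 - 1)
      + 6 * Real.log (x0 ^ 5 - 7 * x0 ^ 3 - 2 * x0 ^ 2 + 8 * x0 - 1) ≤ C)
    (hc : 52 * ((2 * x0) / (x0 ^ 2 - 3)) + 10 * (1 / (x0 + 2))
      + 8 * ((4 * x0 ^ 3 - 12 * x0 - 1) / (x0 ^ 4 - 6 * x0 ^ 2 - x0 + 7))
      + 10 * ((3 * x0 ^ 2 + 2 * x0 - 2) / (x0 ^ 3 + x0 ^ 2 - 2 * x0 - 1))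
      + 6 * ((5 * x0 ^ 4 - 21 * x0 ^ 2 - 4 * x0 + 8) /
        (x0 ^ 5 - 7 * x0 ^ 3 - 2 * x0 ^ 2 + 8 * x0 - 1)) = c) :
    G x ≤ pol x + C + (x - x0) * c := by
  have t1 := R.t1 x x0 h.a1 h.a2
  have t2 := R.t2 x x0 h.a3
  have t3 := R.t3 x x0 h.k1 h.k2 h.k3 h.k4
  have t4 := R.t4 x x0 h.m1 h.m2 h.m3
  have t5 := R.t5 x x0 h.n1 h.n2 h.n3 h.n4 h.n5
  unfold G
  rw [← hc]
  linarith

theorem exp_lb : (2.7182818283 : ℝ) < Real.exp 1 := Real.exp_one_gt_d9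
theorem exp_ub : Real.exp 1 < (2.7182818286 : ℝ) := Real.exp_one_lt_d9

theorem logs_eq (v1 v2 v3 v4 v5 : ℝ) (h1 : v1 ≠ 0) (h2 : v2 ≠ 0) (h3 : v3 ≠ 0) (h4 : v4 ≠ 0)
    (h5 : v5 ≠ 0) :
    52 * Real.log v1 + 10 * Real.log v2 + 8 * Real.log v3 + 10 * Real.log v4
      + 6 * Real.log v5 =
    Real.log (v1 ^ 52 * v2 ^ 10 * v3 ^ 8 * v4 ^ 10 * v5 ^ 6) := by
  rw [Real.log_mul (by positivity) (by positivity),
    Real.log_mul (by positivity) (by positivity),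
    Real.log_mul (by positivity) (by positivity),
    Real.log_mul (by positivity) (by positivity), Real.log_pow, Real.log_pow, Real.log_pow,
    Real.log_pow, Real.log_pow]
  push_cast
  ring

theorem logs_le_pos (v1 v2 v3 v4 v5 : ℝ) (h1 : v1 ≠ 0) (h2 : v2 ≠ 0) (h3 : v3 ≠ 0)
    (h4 : v4 ≠ 0) (h5 : v5 ≠ 0) (m : ℕ)
    (h : v1 ^ 52 * v2 ^ 10 * v3 ^ 8 * v4 ^ 10 * v5 ^ 6 ≤ (2.7182818283 : ℝ) ^ m) :
    52 * Real.log v1 + 10 * Real.log v2 + 8 * Real.log v3 + 10 * Real.log v4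
      + 6 * Real.log v5 ≤ m := by
  rw [logs_eq v1 v2 v3 v4 v5 h1 h2 h3 h4 h5]
  have hpos : 0 < v1 ^ 52 * v2 ^ 10 * v3 ^ 8 * v4 ^ 10 * v5 ^ 6 := by positivity
  rw [Real.log_le_iff_le_exp hpos]
  refine h.trans ?_
  rw [← mul_one (m : ℝ), Real.exp_nat_mul]
  exact pow_le_pow_left₀ (by norm_num) exp_lb.le m

theorem logs_le_neg (v1 v2 v3 v4 v5 : ℝ) (h1 : v1 ≠ 0) (h2 : v2 ≠ 0) (h3 : v3 ≠ 0)
    (h4 : v4 ≠ 0) (h5 : v5 ≠ 0) (m : ℕ)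
    (h : v1 ^ 52 * v2 ^ 10 * v3 ^ 8 * v4 ^ 10 * v5 ^ 6 * (2.7182818286 : ℝ) ^ m ≤ 1) :
    52 * Real.log v1 + 10 * Real.log v2 + 8 * Real.log v3 + 10 * Real.log v4
      + 6 * Real.log v5 ≤ -m := by
  rw [logs_eq v1 v2 v3 v4 v5 h1 h2 h3 h4 h5]
  have hpos : 0 < v1 ^ 52 * v2 ^ 10 * v3 ^ 8 * v4 ^ 10 * v5 ^ 6 := by positivity
  rw [Real.log_le_iff_le_exp hpos, Real.exp_neg, ← mul_one (m : ℝ), Real.exp_nat_mul]
  have h7 : (Real.exp 1) ^ m ≤ (2.7182818286 : ℝ) ^ m :=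
    pow_le_pow_left₀ (Real.exp_pos 1).le exp_ub.le m
  rw [le_inv_comm₀ hpos (by positivity)]
  refine h7.trans ?_
  rw [← one_div, le_div_iff₀ hpos, mul_comm]
  exact h

end Pool.Agent.R834.Med
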