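import Mathlib
import Pool.Agent.R834.Med.Cell

/-!
The bound of the auxiliary function on every root-free interval (one tangent point per interval).
-/

namespace Pool.Agent.R834.Med
open Polynomial

theorem cell0_poly (x : ℝ) (hu : (-4) ≤ x) (hv : x ≤ (-2)) :
    pol x + (-11) + (x - (-41 / 20)) * (-274973020677232093240 / 507169591527768657) ≤ (-700) := by
  unfold pol
  have hw : 0 ≤ (x + 4) * (-2 - x) := mul_nonneg (by linarith) (by linarith)
  have hk : 0 ≤ ((x + 4) * (-2 - x)) * (3 * x ^ 2 - 18 * x - 48) := by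
    apply mul_nonneg hw
    nlinarith [hw]
  nlinarith [hk, hu, hv, sq_nonneg (x + 3)]

theorem cell0_same (R : RD) (x : ℝ) (h1 : (-4) ≤ x) (h2 : x < (-2)) : Same R x (-41 / 20) := by
  constructor
  · exact mul_pos_of_neg_of_neg (by linarith only [h2, R.us]) (by linarith only [R.us])
  · exact mul_pos_of_neg_of_neg (by linarith only [h2, R.ls]) (by linarith only [R.ls])
  · exact mul_pos_of_neg_of_neg (by linarith only [h2]) (by norm_num)
  · exact mul_pos_of_neg_of_neg (by linarith only [h2, R.lc1]) (by linarith only [R.lc1])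
  · exact mul_pos_of_neg_of_neg (by linarith only [h2, R.lc2]) (by linarith only [R.lc2])
  · exact mul_pos_of_neg_of_neg (by linarith only [h2, R.lc3]) (by linarith only [R.lc3])
  · exact mul_pos_of_neg_of_neg (by linarith only [h2, R.lc4]) (by linarith only [R.lc4])
  · exact mul_pos_of_neg_of_neg (by linarith only [h2, R.lb1]) (by linarith only [R.lb1])
  · exact mul_pos_of_neg_of_neg (by linarith only [h2, R.lb2]) (by linarith only [R.lb2])
  · exact mul_pos_of_neg_of_neg (by linarith only [h2, R.lb3]) (by linarith only [R.lb3])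
  · exact mul_pos_of_neg_of_neg (by linarith only [h2, R.le1]) (by linarith only [R.le1])
  · exact mul_pos_of_neg_of_neg (by linarith only [h2, R.le2]) (by linarith only [R.le2])
  · exact mul_pos_of_neg_of_neg (by linarith only [h2, R.le3]) (by linarith only [R.le3])
  · exact mul_pos_of_neg_of_neg (by linarith only [h2, R.le4]) (by linarith only [R.le4])
  · exact mul_pos_of_neg_of_neg (by linarith only [h2, R.le5]) (by linarith only [R.le5])

theorem cell0 (R : RD) (x : ℝ) (h1 : (-4) ≤ x) (h2 : x < (-2)) : G x ≤ (-700) := by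
  have hC := logs_le_neg (481 / 400) (-1 / 20) (239361 / 160000) (-10501 / 8000) (-5453401 / 3200000) (by norm_num) (by norm_num) (by norm_num) (by norm_num)
    (by norm_num) 11 (by norm_num)
  refine (region R x (-41 / 20) (-11) (-274973020677232093240 / 507169591527768657) (cell0_same R x h1 h2) ?_ ?_).trans (cell0_poly x ?_ ?_)
  · refine le_trans (le_of_eq ?_) (hC.trans (by norm_num))
    norm_num
  · norm_num
  · exact h1
  · linarith only [h2]

theorem cell1_poly (x : ℝ) (hu : (-2) ≤ x) (hv : x ≤ (-18529 / 10000)) :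
    pol x + (-83) + (x - (-473 / 250)) * (-77209522571776759125571538134569500 / 101252584220119252880395173969699) ≤ (-700) := by
  unfold pol
  have hk : 0 ≤ (x - (-2)) ^ 2 * (133 - (3 * x ^ 2 + 6 * (-2) * x + 9 * (-2) ^ 2)) := by
    apply mul_nonneg (sq_nonneg _)
    nlinarith [mul_nonneg (sub_nonneg.mpr hu) (sub_nonneg.mpr hv)]
  linarith [hk, hu, hv]

theorem cell1_same (R : RD) (x : ℝ) (h1 : (-2) < x) (h2 : x < R.e1) : Same R x (-473 / 250) := by
  constructor
  · exact mul_pos_of_neg_of_neg (by linarith only [h2, R.us, R.ue1]) (by linarith only [R.us])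
  · exact mul_pos_of_neg_of_neg (by linarith only [h2, R.ls, R.ue1]) (by linarith only [R.ls])
  · exact mul_pos (by linarith only [h1]) (by norm_num)
  · exact mul_pos_of_neg_of_neg (by linarith only [h2, R.lc1, R.ue1]) (by linarith only [R.lc1])
  · exact mul_pos_of_neg_of_neg (by linarith only [h2, R.lc2, R.ue1]) (by linarith only [R.lc2])
  · exact mul_pos_of_neg_of_neg (by linarith only [h2, R.lc3, R.ue1]) (by linarith only [R.lc3])
  · exact mul_pos_of_neg_of_neg (by linarith only [h2, R.lc4, R.ue1]) (by linarith only [R.lc4])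
  · exact mul_pos_of_neg_of_neg (by linarith only [h2, R.lb1, R.ue1]) (by linarith only [R.lb1])
  · exact mul_pos_of_neg_of_neg (by linarith only [h2, R.lb2, R.ue1]) (by linarith only [R.lb2])
  · exact mul_pos_of_neg_of_neg (by linarith only [h2, R.lb3, R.ue1]) (by linarith only [R.lb3])
  · exact mul_pos_of_neg_of_neg (by linarith only [h2]) (by linarith only [R.le1])
  · exact mul_pos_of_neg_of_neg (by linarith only [h2, R.le2, R.ue1]) (by linarith only [R.le2])
  · exact mul_pos_of_neg_of_neg (by linarith only [h2, R.le3, R.ue1]) (by linarith only [R.le3])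
  · exact mul_pos_of_neg_of_neg (by linarith only [h2, R.le4, R.ue1]) (by linarith only [R.le4])
  · exact mul_pos_of_neg_of_neg (by linarith only [h2, R.le5, R.ue1]) (by linarith only [R.le5])

theorem cell1 (R : RD) (x : ℝ) (h1 : (-2) < x) (h2 : x < R.e1) : G x ≤ (-700) := by
  have hC := logs_le_neg (36229 / 62500) (27 / 250) (890665441 / 3906250000) (-6391567 / 15625000) (-127280566093 / 976562500000) (by norm_num) (by norm_num) (by norm_num) (by norm_num)
    (by norm_num) 83 (by norm_num)
  refine (region R x (-473 / 250) (-83) (-77209522571776759125571538134569500 / 101252584220119252880395173969699) (cell1_same R x h1 h2) ?_ ?_).trans (cell1_poly x ?_ ?_)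
  · refine le_trans (le_of_eq ?_) (hC.trans (by norm_num))
    norm_num
  · norm_num
  · linarith only [h1]
  · linarith only [h2, R.ue1]

theorem cell2_poly (x : ℝ) (hu : (-1853 / 1000) ≤ x) (hv : x ≤ (-18429 / 10000)) :
    pol x + (-139) + (x - (-231 / 125)) * (-13826100922898778213503024500 / 12716002597497707185815221) ≤ (-700) := by
  unfold pol
  have hk : 0 ≤ (x - (-2)) ^ 2 * (133 - (3 * x ^ 2 + 6 * (-2) * x + 9 * (-2) ^ 2)) := by
    apply mul_nonneg (sq_nonneg _)
    nlinarith [mul_nonneg (sub_nonneg.mpr hu) (sub_nonneg.mpr hv)]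
  linarith [hk, hu, hv]

theorem cell2_same (R : RD) (x : ℝ) (h1 : R.e1 < x) (h2 : x < R.c1) : Same R x (-231 / 125) := by
  constructor
  · exact mul_pos_of_neg_of_neg (by linarith only [h2, R.us, R.uc1]) (by linarith only [R.us])
  · exact mul_pos_of_neg_of_neg (by linarith only [h2, R.ls, R.uc1]) (by linarith only [R.ls])
  · exact mul_pos (by linarith only [h1, R.le1]) (by norm_num)
  · exact mul_pos_of_neg_of_neg (by linarith only [h2]) (by linarith only [R.lc1])
  · exact mul_pos_of_neg_of_neg (by linarith only [h2, R.lc2, R.uc1]) (by linarith only [R.lc2])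
  · exact mul_pos_of_neg_of_neg (by linarith only [h2, R.lc3, R.uc1]) (by linarith only [R.lc3])
  · exact mul_pos_of_neg_of_neg (by linarith only [h2, R.lc4, R.uc1]) (by linarith only [R.lc4])
  · exact mul_pos_of_neg_of_neg (by linarith only [h2, R.lb1, R.uc1]) (by linarith only [R.lb1])
  · exact mul_pos_of_neg_of_neg (by linarith only [h2, R.lb2, R.uc1]) (by linarith only [R.lb2])
  · exact mul_pos_of_neg_of_neg (by linarith only [h2, R.lb3, R.uc1]) (by linarith only [R.lb3])
  · exact mul_pos (by linarith only [h1]) (by linarith only [R.ue1])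
  · exact mul_pos_of_neg_of_neg (by linarith only [h2, R.le2, R.uc1]) (by linarith only [R.le2])
  · exact mul_pos_of_neg_of_neg (by linarith only [h2, R.le3, R.uc1]) (by linarith only [R.le3])
  · exact mul_pos_of_neg_of_neg (by linarith only [h2, R.le4, R.uc1]) (by linarith only [R.le4])
  · exact mul_pos_of_neg_of_neg (by linarith only [h2, R.le5, R.uc1]) (by linarith only [R.le5])

theorem cell2 (R : RD) (x : ℝ) (h1 : R.e1 < x) (h2 : x < R.c1) : G x ≤ (-700) := by
  have hC := logs_le_neg (6486 / 15625) (19 / 125) (4958821 / 244140625) (-390641 / 1953125) (319606099 / 30517578125) (by norm_num) (by norm_num) (by norm_num) (by norm_num)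
    (by norm_num) 139 (by norm_num)
  refine (region R x (-231 / 125) (-139) (-13826100922898778213503024500 / 12716002597497707185815221) (cell2_same R x h1 h2) ?_ ?_).trans (cell2_poly x ?_ ?_)
  · refine le_trans (le_of_eq ?_) (hC.trans (by norm_num))
    norm_num
  · norm_num
  · linarith only [h1, R.le1]
  · linarith only [h2, R.uc1]

theorem cell3_poly (x : ℝ) (hu : (-1843 / 1000) ≤ x) (hv : x ≤ (-18019 / 10000)) :
    pol x + (-141) + (x - (-91 / 50)) * (-358526587149611255451700 / 497064877528421347299) ≤ (-700) := by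
  unfold pol
  have hk : 0 ≤ (x - (-2)) ^ 2 * (133 - (3 * x ^ 2 + 6 * (-2) * x + 9 * (-2) ^ 2)) := by
    apply mul_nonneg (sq_nonneg _)
    nlinarith [mul_nonneg (sub_nonneg.mpr hu) (sub_nonneg.mpr hv)]
  linarith [hk, hu, hv]

theorem cell3_same (R : RD) (x : ℝ) (h1 : R.c1 < x) (h2 : x < R.b1) : Same R x (-91 / 50) := by
  constructor
  · exact mul_pos_of_neg_of_neg (by linarith only [h2, R.us, R.ub1]) (by linarith only [R.us])
  · exact mul_pos_of_neg_of_neg (by linarith only [h2, R.ls, R.ub1]) (by linarith only [R.ls])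
  · exact mul_pos (by linarith only [h1, R.lc1]) (by norm_num)
  · exact mul_pos (by linarith only [h1]) (by linarith only [R.uc1])
  · exact mul_pos_of_neg_of_neg (by linarith only [h2, R.lc2, R.ub1]) (by linarith only [R.lc2])
  · exact mul_pos_of_neg_of_neg (by linarith only [h2, R.lc3, R.ub1]) (by linarith only [R.lc3])
  · exact mul_pos_of_neg_of_neg (by linarith only [h2, R.lc4, R.ub1]) (by linarith only [R.lc4])
  · exact mul_pos_of_neg_of_neg (by linarith only [h2]) (by linarith only [R.lb1])
  · exact mul_pos_of_neg_of_neg (by linarith only [h2, R.lb2, R.ub1]) (by linarith only [R.lb2])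
  · exact mul_pos_of_neg_of_neg (by linarith only [h2, R.lb3, R.ub1]) (by linarith only [R.lb3])
  · exact mul_pos (by linarith only [h1, R.ue1, R.lc1]) (by linarith only [R.ue1])
  · exact mul_pos_of_neg_of_neg (by linarith only [h2, R.le2, R.ub1]) (by linarith only [R.le2])
  · exact mul_pos_of_neg_of_neg (by linarith only [h2, R.le3, R.ub1]) (by linarith only [R.le3])
  · exact mul_pos_of_neg_of_neg (by linarith only [h2, R.le4, R.ub1]) (by linarith only [R.le4])
  · exact mul_pos_of_neg_of_neg (by linarith only [h2, R.le5, R.ub1]) (by linarith only [R.le5])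

theorem cell3 (R : RD) (x : ℝ) (h1 : R.c1 < x) (h2 : x < R.b1) : G x ≤ (-700) := by
  have hC := logs_le_neg (781 / 2500) (9 / 50) (-515039 / 6250000) (-9521 / 125000) (14421049 / 312500000) (by norm_num) (by norm_num) (by norm_num) (by norm_num)
    (by norm_num) 141 (by norm_num)
  refine (region R x (-91 / 50) (-141) (-358526587149611255451700 / 497064877528421347299) (cell3_same R x h1 h2) ?_ ?_).trans (cell3_poly x ?_ ?_)
  · refine le_trans (le_of_eq ?_) (hC.trans (by norm_num))
    norm_num
  · norm_num
  · linarith only [h1, R.lc1]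
  · linarith only [h2, R.ub1]

theorem cell4_poly (x : ℝ) (hu : (-901 / 500) ≤ x) (hv : x ≤ (-44 / 25)) :
    pol x + (-165) + (x - (-89 / 50)) * (-66196038536517636418900 / 89106170576458629957) ≤ (-700) := by
  unfold pol
  have hk : 0 ≤ (x - (-7 / 4)) ^ 2 * (133 - (3 * x ^ 2 + 6 * (-7 / 4) * x + 9 * (-7 / 4) ^ 2)) := by
    apply mul_nonneg (sq_nonneg _)
    nlinarith [mul_nonneg (sub_nonneg.mpr hu) (sub_nonneg.mpr hv)]
  linarith [hk, hu, hv]

theorem cell4_same (R : RD) (x : ℝ) (h1 : R.b1 < x) (h2 : x < R.e2) : Same R x (-89 / 50) := by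
  constructor
  · exact mul_pos_of_neg_of_neg (by linarith only [h2, R.us, R.ue2]) (by linarith only [R.us])
  · exact mul_pos_of_neg_of_neg (by linarith only [h2, R.ls, R.ue2]) (by linarith only [R.ls])
  · exact mul_pos (by linarith only [h1, R.lb1]) (by norm_num)
  · exact mul_pos (by linarith only [h1, R.uc1, R.lb1]) (by linarith only [R.uc1])
  · exact mul_pos_of_neg_of_neg (by linarith only [h2, R.lc2, R.ue2]) (by linarith only [R.lc2])
  · exact mul_pos_of_neg_of_neg (by linarith only [h2, R.lc3, R.ue2]) (by linarith only [R.lc3])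
  · exact mul_pos_of_neg_of_neg (by linarith only [h2, R.lc4, R.ue2]) (by linarith only [R.lc4])
  · exact mul_pos (by linarith only [h1]) (by linarith only [R.ub1])
  · exact mul_pos_of_neg_of_neg (by linarith only [h2, R.lb2, R.ue2]) (by linarith only [R.lb2])
  · exact mul_pos_of_neg_of_neg (by linarith only [h2, R.lb3, R.ue2]) (by linarith only [R.lb3])
  · exact mul_pos (by linarith only [h1, R.ue1, R.lb1]) (by linarith only [R.ue1])
  · exact mul_pos_of_neg_of_neg (by linarith only [h2]) (by linarith only [R.le2])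
  · exact mul_pos_of_neg_of_neg (by linarith only [h2, R.le3, R.ue2]) (by linarith only [R.le3])
  · exact mul_pos_of_neg_of_neg (by linarith only [h2, R.le4, R.ue2]) (by linarith only [R.le4])
  · exact mul_pos_of_neg_of_neg (by linarith only [h2, R.le5, R.ue2]) (by linarith only [R.le5])

theorem cell4 (R : RD) (x : ℝ) (h1 : R.b1 < x) (h2 : x < R.e2) : G x ≤ (-700) := by
  have hC := logs_le_neg (421 / 2500) (11 / 50) (-1197759 / 6250000) (11081 / 125000) (10148051 / 312500000) (by norm_num) (by norm_num) (by norm_num) (by norm_num)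
    (by norm_num) 165 (by norm_num)
  refine (region R x (-89 / 50) (-165) (-66196038536517636418900 / 89106170576458629957) (cell4_same R x h1 h2) ?_ ?_).trans (cell4_poly x ?_ ?_)
  · refine le_trans (le_of_eq ?_) (hC.trans (by norm_num))
    norm_num
  · norm_num
  · linarith only [h1, R.lb1]
  · linarith only [h2, R.ue2]

theorem cell5_poly (x : ℝ) (hu : (-17601 / 10000) ≤ x) (hv : x ≤ (-433 / 250)) :
    pol x + (-207) + (x - (-7 / 4)) * (-37632904 / 18837) ≤ (-700) := by
  unfold pol
  have hk : 0 ≤ (x - (-2)) ^ 2 * (133 - (3 * x ^ 2 + 6 * (-2) * x + 9 * (-2) ^ 2)) := by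
    apply mul_nonneg (sq_nonneg _)
    nlinarith [mul_nonneg (sub_nonneg.mpr hu) (sub_nonneg.mpr hv)]
  linarith [hk, hu, hv]

theorem cell5_same (R : RD) (x : ℝ) (h1 : R.e2 < x) (h2 : x < (-R.s)) : Same R x (-7 / 4) := by
  constructor
  · exact mul_pos_of_neg_of_neg (by linarith only [h2]) (by linarith only [R.us])
  · exact mul_pos_of_neg_of_neg (by linarith only [h2, R.ls, R.ls]) (by linarith only [R.ls])
  · exact mul_pos (by linarith only [h1, R.le2]) (by norm_num)
  · exact mul_pos (by linarith only [h1, R.uc1, R.le2]) (by linarith only [R.uc1])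
  · exact mul_pos_of_neg_of_neg (by linarith only [h2, R.lc2, R.ls]) (by linarith only [R.lc2])
  · exact mul_pos_of_neg_of_neg (by linarith only [h2, R.lc3, R.ls]) (by linarith only [R.lc3])
  · exact mul_pos_of_neg_of_neg (by linarith only [h2, R.lc4, R.ls]) (by linarith only [R.lc4])
  · exact mul_pos (by linarith only [h1, R.ub1, R.le2]) (by linarith only [R.ub1])
  · exact mul_pos_of_neg_of_neg (by linarith only [h2, R.lb2, R.ls]) (by linarith only [R.lb2])
  · exact mul_pos_of_neg_of_neg (by linarith only [h2, R.lb3, R.ls]) (by linarith only [R.lb3])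
  · exact mul_pos (by linarith only [h1, R.ue1, R.le2]) (by linarith only [R.ue1])
  · exact mul_pos (by linarith only [h1]) (by linarith only [R.ue2])
  · exact mul_pos_of_neg_of_neg (by linarith only [h2, R.le3, R.ls]) (by linarith only [R.le3])
  · exact mul_pos_of_neg_of_neg (by linarith only [h2, R.le4, R.ls]) (by linarith only [R.le4])
  · exact mul_pos_of_neg_of_neg (by linarith only [h2, R.le5, R.ls]) (by linarith only [R.le5])

theorem cell5 (R : RD) (x : ℝ) (h1 : R.e2 < x) (h2 : x < (-R.s)) : G x ≤ (-700) := by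
  have hC := logs_le_neg (1 / 16) (1 / 4) (-63 / 256) (13 / 64) (-23 / 1024) (by norm_num) (by norm_num) (by norm_num) (by norm_num)
    (by norm_num) 207 (by norm_num)
  refine (region R x (-7 / 4) (-207) (-37632904 / 18837) (cell5_same R x h1 h2) ?_ ?_).trans (cell5_poly x ?_ ?_)
  · refine le_trans (le_of_eq ?_) (hC.trans (by norm_num))
    norm_num
  · norm_num
  · linarith only [h1, R.le2]
  · linarith only [h2, R.ls]

theorem cell6_poly (x : ℝ) (hu : (-17321 / 10000) ≤ x) (hv : x ≤ (-7593 / 5000)) :
    pol x + (-70) + (x - (-8 / 5)) * (114519207865 / 270062661) ≤ (6999 / 10) := by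
  unfold pol
  have hk : 0 ≤ (x - (-2)) ^ 2 * (133 - (3 * x ^ 2 + 6 * (-2) * x + 9 * (-2) ^ 2)) := by
    apply mul_nonneg (sq_nonneg _)
    nlinarith [mul_nonneg (sub_nonneg.mpr hu) (sub_nonneg.mpr hv)]
  linarith [hk, hu, hv]

theorem cell6_same (R : RD) (x : ℝ) (h1 : (-R.s) < x) (h2 : x < R.c2) : Same R x (-8 / 5) := by
  constructor
  · exact mul_pos (by linarith only [h1]) (by linarith only [R.ls])
  · exact mul_pos_of_neg_of_neg (by linarith only [h2, R.ls, R.uc2]) (by linarith only [R.ls])
  · exact mul_pos (by linarith only [h1, R.us]) (by norm_num)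
  · exact mul_pos (by linarith only [h1, R.uc1, R.us]) (by linarith only [R.uc1])
  · exact mul_pos_of_neg_of_neg (by linarith only [h2]) (by linarith only [R.lc2])
  · exact mul_pos_of_neg_of_neg (by linarith only [h2, R.lc3, R.uc2]) (by linarith only [R.lc3])
  · exact mul_pos_of_neg_of_neg (by linarith only [h2, R.lc4, R.uc2]) (by linarith only [R.lc4])
  · exact mul_pos (by linarith only [h1, R.ub1, R.us]) (by linarith only [R.ub1])
  · exact mul_pos_of_neg_of_neg (by linarith only [h2, R.lb2, R.uc2]) (by linarith only [R.lb2])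
  · exact mul_pos_of_neg_of_neg (by linarith only [h2, R.lb3, R.uc2]) (by linarith only [R.lb3])
  · exact mul_pos (by linarith only [h1, R.ue1, R.us]) (by linarith only [R.ue1])
  · exact mul_pos (by linarith only [h1, R.ue2, R.us]) (by linarith only [R.ue2])
  · exact mul_pos_of_neg_of_neg (by linarith only [h2, R.le3, R.uc2]) (by linarith only [R.le3])
  · exact mul_pos_of_neg_of_neg (by linarith only [h2, R.le4, R.uc2]) (by linarith only [R.le4])
  · exact mul_pos_of_neg_of_neg (by linarith only [h2, R.le5, R.uc2]) (by linarith only [R.le5])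

theorem cell6 (R : RD) (x : ℝ) (h1 : (-R.s) < x) (h2 : x < R.c2) : G x ≤ (6999 / 10) := by
  have hC := logs_le_neg (-11 / 25) (2 / 5) (-129 / 625) (83 / 125) (-2293 / 3125) (by norm_num) (by norm_num) (by norm_num) (by norm_num)
    (by norm_num) 70 (by norm_num)
  refine (region R x (-8 / 5) (-70) (114519207865 / 270062661) (cell6_same R x h1 h2) ?_ ?_).trans (cell6_poly x ?_ ?_)
  · refine le_trans (le_of_eq ?_) (hC.trans (by norm_num))
    norm_num
  · norm_num
  · linarith only [h1, R.us]
  · linarith only [h2, R.uc2]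

theorem cell7_poly (x : ℝ) (hu : (-15187 / 10000) ≤ x) (hv : x ≤ (-89 / 200)) :
    pol x + 60 + (x - (-1 / 2)) * (-73931668 / 476949) ≤ (6999 / 10) := by
  unfold pol
  have hk : 0 ≤ (x - 0) ^ 2 * (133 - (3 * x ^ 2 + 6 * 0 * x + 9 * 0 ^ 2)) := by
    apply mul_nonneg (sq_nonneg _)
    nlinarith [mul_nonneg (sub_nonneg.mpr hu) (sub_nonneg.mpr hv)]
  linarith [hk, hu, hv]

theorem cell7_same (R : RD) (x : ℝ) (h1 : R.c2 < x) (h2 : x < R.b2) : Same R x (-1 / 2) := by
  constructor
  · exact mul_pos (by linarith only [h1, R.ls, R.lc2]) (by linarith only [R.ls])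
  · exact mul_pos_of_neg_of_neg (by linarith only [h2, R.ls, R.ub2]) (by linarith only [R.ls])
  · exact mul_pos (by linarith only [h1, R.lc2]) (by norm_num)
  · exact mul_pos (by linarith only [h1, R.uc1, R.lc2]) (by linarith only [R.uc1])
  · exact mul_pos (by linarith only [h1]) (by linarith only [R.uc2])
  · exact mul_pos_of_neg_of_neg (by linarith only [h2, R.lc3, R.ub2]) (by linarith only [R.lc3])
  · exact mul_pos_of_neg_of_neg (by linarith only [h2, R.lc4, R.ub2]) (by linarith only [R.lc4])
  · exact mul_pos (by linarith only [h1, R.ub1, R.lc2]) (by linarith only [R.ub1])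
  · exact mul_pos_of_neg_of_neg (by linarith only [h2]) (by linarith only [R.lb2])
  · exact mul_pos_of_neg_of_neg (by linarith only [h2, R.lb3, R.ub2]) (by linarith only [R.lb3])
  · exact mul_pos (by linarith only [h1, R.ue1, R.lc2]) (by linarith only [R.ue1])
  · exact mul_pos (by linarith only [h1, R.ue2, R.lc2]) (by linarith only [R.ue2])
  · exact mul_pos_of_neg_of_neg (by linarith only [h2, R.le3, R.ub2]) (by linarith only [R.le3])
  · exact mul_pos_of_neg_of_neg (by linarith only [h2, R.le4, R.ub2]) (by linarith only [R.le4])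
  · exact mul_pos_of_neg_of_neg (by linarith only [h2, R.le5, R.ub2]) (by linarith only [R.le5])

theorem cell7 (R : RD) (x : ℝ) (h1 : R.c2 < x) (h2 : x < R.b2) : G x ≤ (6999 / 10) := by
  have hC := logs_le_pos (-11 / 4) (3 / 2) (97 / 16) (1 / 8) (-149 / 32) (by norm_num) (by norm_num) (by norm_num) (by norm_num)
    (by norm_num) 60 (by norm_num)
  refine (region R x (-1 / 2) 60 (-73931668 / 476949) (cell7_same R x h1 h2) ?_ ?_).trans (cell7_poly x ?_ ?_)
  · refine le_trans (le_of_eq ?_) (hC.trans (by norm_num))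
    norm_num
  · norm_num
  · linarith only [h1, R.lc2]
  · linarith only [h2, R.ub2]

theorem cell8_poly (x : ℝ) (hu : (-4451 / 10000) ≤ x) (hv : x ≤ (1313 / 10000)) :
    pol x + 80 + (x - 0) * (-169 / 7) ≤ (6999 / 10) := by
  unfold pol
  have hk : 0 ≤ (x - 0) ^ 2 * (133 - (3 * x ^ 2 + 6 * 0 * x + 9 * 0 ^ 2)) := by
    apply mul_nonneg (sq_nonneg _)
    nlinarith [mul_nonneg (sub_nonneg.mpr hu) (sub_nonneg.mpr hv)]
  linarith [hk, hu, hv]

theorem cell8_same (R : RD) (x : ℝ) (h1 : R.b2 < x) (h2 : x < R.e3) : Same R x 0 := by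
  constructor
  · exact mul_pos (by linarith only [h1, R.ls, R.lb2]) (by linarith only [R.ls])
  · exact mul_pos_of_neg_of_neg (by linarith only [h2, R.ls, R.ue3]) (by linarith only [R.ls])
  · exact mul_pos (by linarith only [h1, R.lb2]) (by norm_num)
  · exact mul_pos (by linarith only [h1, R.uc1, R.lb2]) (by linarith only [R.uc1])
  · exact mul_pos (by linarith only [h1, R.uc2, R.lb2]) (by linarith only [R.uc2])
  · exact mul_pos_of_neg_of_neg (by linarith only [h2, R.lc3, R.ue3]) (by linarith only [R.lc3])
  · exact mul_pos_of_neg_of_neg (by linarith only [h2, R.lc4, R.ue3]) (by linarith only [R.lc4])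
  · exact mul_pos (by linarith only [h1, R.ub1, R.lb2]) (by linarith only [R.ub1])
  · exact mul_pos (by linarith only [h1]) (by linarith only [R.ub2])
  · exact mul_pos_of_neg_of_neg (by linarith only [h2, R.lb3, R.ue3]) (by linarith only [R.lb3])
  · exact mul_pos (by linarith only [h1, R.ue1, R.lb2]) (by linarith only [R.ue1])
  · exact mul_pos (by linarith only [h1, R.ue2, R.lb2]) (by linarith only [R.ue2])
  · exact mul_pos_of_neg_of_neg (by linarith only [h2]) (by linarith only [R.le3])
  · exact mul_pos_of_neg_of_neg (by linarith only [h2, R.le4, R.ue3]) (by linarith only [R.le4])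
  · exact mul_pos_of_neg_of_neg (by linarith only [h2, R.le5, R.ue3]) (by linarith only [R.le5])

theorem cell8 (R : RD) (x : ℝ) (h1 : R.b2 < x) (h2 : x < R.e3) : G x ≤ (6999 / 10) := by
  have hC := logs_le_pos (-3) 2 7 (-1) (-1) (by norm_num) (by norm_num) (by norm_num) (by norm_num)
    (by norm_num) 80 (by norm_num)
  refine (region R x 0 80 (-169 / 7) (cell8_same R x h1 h2) ?_ ?_).trans (cell8_poly x ?_ ?_)
  · refine le_trans (le_of_eq ?_) (hC.trans (by norm_num))
    norm_num
  · norm_num
  · linarith only [h1, R.lb2]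
  · linarith only [h2, R.ue3]

theorem cell9_poly (x : ℝ) (hu : (82 / 625) ≤ x) (hv : x ≤ (567 / 625)) :
    pol x + 66 + (x - (4 / 5)) * (-39351826246885 / 349243698657) ≤ (6999 / 10) := by
  unfold pol
  have hk : 0 ≤ (x - (3 / 4)) ^ 2 * (133 - (3 * x ^ 2 + 6 * (3 / 4) * x + 9 * (3 / 4) ^ 2)) := by
    apply mul_nonneg (sq_nonneg _)
    nlinarith [mul_nonneg (sub_nonneg.mpr hu) (sub_nonneg.mpr hv)]
  linarith [hk, hu, hv]

theorem cell9_same (R : RD) (x : ℝ) (h1 : R.e3 < x) (h2 : x < R.e4) : Same R x (4 / 5) := by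
  constructor
  · exact mul_pos (by linarith only [h1, R.ls, R.le3]) (by linarith only [R.ls])
  · exact mul_pos_of_neg_of_neg (by linarith only [h2, R.ls, R.ue4]) (by linarith only [R.ls])
  · exact mul_pos (by linarith only [h1, R.le3]) (by norm_num)
  · exact mul_pos (by linarith only [h1, R.uc1, R.le3]) (by linarith only [R.uc1])
  · exact mul_pos (by linarith only [h1, R.uc2, R.le3]) (by linarith only [R.uc2])
  · exact mul_pos_of_neg_of_neg (by linarith only [h2, R.lc3, R.ue4]) (by linarith only [R.lc3])
  · exact mul_pos_of_neg_of_neg (by linarith only [h2, R.lc4, R.ue4]) (by linarith only [R.lc4])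
  · exact mul_pos (by linarith only [h1, R.ub1, R.le3]) (by linarith only [R.ub1])
  · exact mul_pos (by linarith only [h1, R.ub2, R.le3]) (by linarith only [R.ub2])
  · exact mul_pos_of_neg_of_neg (by linarith only [h2, R.lb3, R.ue4]) (by linarith only [R.lb3])
  · exact mul_pos (by linarith only [h1, R.ue1, R.le3]) (by linarith only [R.ue1])
  · exact mul_pos (by linarith only [h1, R.ue2, R.le3]) (by linarith only [R.ue2])
  · exact mul_pos (by linarith only [h1]) (by linarith only [R.ue3])
  · exact mul_pos_of_neg_of_neg (by linarith only [h2]) (by linarith only [R.le4])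
  · exact mul_pos_of_neg_of_neg (by linarith only [h2, R.le5, R.ue4]) (by linarith only [R.le5])

theorem cell9 (R : RD) (x : ℝ) (h1 : R.e3 < x) (h2 : x < R.e4) : G x ≤ (6999 / 10) := by
  have hC := logs_le_pos (-59 / 25) (14 / 5) (1731 / 625) (-181 / 125) (2699 / 3125) (by norm_num) (by norm_num) (by norm_num) (by norm_num)
    (by norm_num) 66 (by norm_num)
  refine (region R x (4 / 5) 66 (-39351826246885 / 349243698657) (cell9_same R x h1 h2) ?_ ?_).trans (cell9_poly x ?_ ?_)
  · refine le_trans (le_of_eq ?_) (hC.trans (by norm_num))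
    norm_num
  · norm_num
  · linarith only [h1, R.le3]
  · linarith only [h2, R.ue4]

theorem cell10_poly (x : ℝ) (hu : (9071 / 10000) ≤ x) (hv : x ≤ (5559 / 5000)) :
    pol x + 48 + (x - 1) * (-236 / 3) ≤ (6999 / 10) := by
  unfold pol
  have hk : 0 ≤ (x - 1) ^ 2 * (133 - (3 * x ^ 2 + 6 * 1 * x + 9 * 1 ^ 2)) := by
    apply mul_nonneg (sq_nonneg _)
    nlinarith [mul_nonneg (sub_nonneg.mpr hu) (sub_nonneg.mpr hv)]
  linarith [hk, hu, hv]

theorem cell10_same (R : RD) (x : ℝ) (h1 : R.e4 < x) (h2 : x < R.c3) : Same R x 1 := by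
  constructor
  · exact mul_pos (by linarith only [h1, R.ls, R.le4]) (by linarith only [R.ls])
  · exact mul_pos_of_neg_of_neg (by linarith only [h2, R.ls, R.uc3]) (by linarith only [R.ls])
  · exact mul_pos (by linarith only [h1, R.le4]) (by norm_num)
  · exact mul_pos (by linarith only [h1, R.uc1, R.le4]) (by linarith only [R.uc1])
  · exact mul_pos (by linarith only [h1, R.uc2, R.le4]) (by linarith only [R.uc2])
  · exact mul_pos_of_neg_of_neg (by linarith only [h2]) (by linarith only [R.lc3])
  · exact mul_pos_of_neg_of_neg (by linarith only [h2, R.lc4, R.uc3]) (by linarith only [R.lc4])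
  · exact mul_pos (by linarith only [h1, R.ub1, R.le4]) (by linarith only [R.ub1])
  · exact mul_pos (by linarith only [h1, R.ub2, R.le4]) (by linarith only [R.ub2])
  · exact mul_pos_of_neg_of_neg (by linarith only [h2, R.lb3, R.uc3]) (by linarith only [R.lb3])
  · exact mul_pos (by linarith only [h1, R.ue1, R.le4]) (by linarith only [R.ue1])
  · exact mul_pos (by linarith only [h1, R.ue2, R.le4]) (by linarith only [R.ue2])
  · exact mul_pos (by linarith only [h1, R.ue3, R.le4]) (by linarith only [R.ue3])
  · exact mul_pos (by linarith only [h1]) (by linarith only [R.ue4])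
  · exact mul_pos_of_neg_of_neg (by linarith only [h2, R.le5, R.uc3]) (by linarith only [R.le5])

theorem cell10 (R : RD) (x : ℝ) (h1 : R.e4 < x) (h2 : x < R.c3) : G x ≤ (6999 / 10) := by
  have hC := logs_le_pos (-2) 3 1 (-1) (-1) (by norm_num) (by norm_num) (by norm_num) (by norm_num)
    (by norm_num) 48 (by norm_num)
  refine (region R x 1 48 (-236 / 3) (cell10_same R x h1 h2) ?_ ?_).trans (cell10_poly x ?_ ?_)
  · refine le_trans (le_of_eq ?_) (hC.trans (by norm_num))
    norm_num
  · norm_num
  · linarith only [h1, R.le4]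
  · linarith only [h2, R.uc3]

theorem cell11_poly (x : ℝ) (hu : (11117 / 10000) ≤ x) (hv : x ≤ (1247 / 1000)) :
    pol x + 29 + (x - (117 / 100)) * (-30716663820475477520906754074200 / 1102104427448545508902304319331) ≤ (6999 / 10) := by
  unfold pol
  have hk : 0 ≤ (x - 1) ^ 2 * (133 - (3 * x ^ 2 + 6 * 1 * x + 9 * 1 ^ 2)) := by
    apply mul_nonneg (sq_nonneg _)
    nlinarith [mul_nonneg (sub_nonneg.mpr hu) (sub_nonneg.mpr hv)]
  linarith [hk, hu, hv]

theorem cell11_same (R : RD) (x : ℝ) (h1 : R.c3 < x) (h2 : x < R.b3) : Same R x (117 / 100) := by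
  constructor
  · exact mul_pos (by linarith only [h1, R.ls, R.lc3]) (by linarith only [R.ls])
  · exact mul_pos_of_neg_of_neg (by linarith only [h2, R.ls, R.ub3]) (by linarith only [R.ls])
  · exact mul_pos (by linarith only [h1, R.lc3]) (by norm_num)
  · exact mul_pos (by linarith only [h1, R.uc1, R.lc3]) (by linarith only [R.uc1])
  · exact mul_pos (by linarith only [h1, R.uc2, R.lc3]) (by linarith only [R.uc2])
  · exact mul_pos (by linarith only [h1]) (by linarith only [R.uc3])
  · exact mul_pos_of_neg_of_neg (by linarith only [h2, R.lc4, R.ub3]) (by linarith only [R.lc4])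
  · exact mul_pos (by linarith only [h1, R.ub1, R.lc3]) (by linarith only [R.ub1])
  · exact mul_pos (by linarith only [h1, R.ub2, R.lc3]) (by linarith only [R.ub2])
  · exact mul_pos_of_neg_of_neg (by linarith only [h2]) (by linarith only [R.lb3])
  · exact mul_pos (by linarith only [h1, R.ue1, R.lc3]) (by linarith only [R.ue1])
  · exact mul_pos (by linarith only [h1, R.ue2, R.lc3]) (by linarith only [R.ue2])
  · exact mul_pos (by linarith only [h1, R.ue3, R.lc3]) (by linarith only [R.ue3])
  · exact mul_pos (by linarith only [h1, R.ue4, R.lc3]) (by linarith only [R.ue4])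
  · exact mul_pos_of_neg_of_neg (by linarith only [h2, R.le5, R.ub3]) (by linarith only [R.le5])

theorem cell11 (R : RD) (x : ℝ) (h1 : R.c3 < x) (h2 : x < R.b3) : G x ≤ (6999 / 10) := by
  have hC := logs_le_pos (-16311 / 10000) (317 / 100) (-50951279 / 100000000) (-369487 / 1000000) (-33966429643 / 10000000000) (by norm_num) (by norm_num) (by norm_num) (by norm_num)
    (by norm_num) 29 (by norm_num)
  refine (region R x (117 / 100) 29 (-30716663820475477520906754074200 / 1102104427448545508902304319331) (cell11_same R x h1 h2) ?_ ?_).trans (cell11_poly x ?_ ?_)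
  · refine le_trans (le_of_eq ?_) (hC.trans (by norm_num))
    norm_num
  · norm_num
  · linarith only [h1, R.lc3]
  · linarith only [h2, R.ub3]

theorem cell12_poly (x : ℝ) (hu : (12469 / 10000) ≤ x) (hv : x ≤ (17321 / 10000)) :
    pol x + 33 + (x - (11 / 8)) * (5510709062374672 / 1477005221763909) ≤ (6999 / 10) := by
  unfold pol
  have hk : 0 ≤ (x - (7 / 5)) ^ 2 * (133 - (3 * x ^ 2 + 6 * (7 / 5) * x + 9 * (7 / 5) ^ 2)) := by
    apply mul_nonneg (sq_nonneg _)
    nlinarith [mul_nonneg (sub_nonneg.mpr hu) (sub_nonneg.mpr hv)]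
  linarith [hk, hu, hv]

theorem cell12_same (R : RD) (x : ℝ) (h1 : R.b3 < x) (h2 : x < R.s) : Same R x (11 / 8) := by
  constructor
  · exact mul_pos (by linarith only [h1, R.ls, R.lb3]) (by linarith only [R.ls])
  · exact mul_pos_of_neg_of_neg (by linarith only [h2]) (by linarith only [R.ls])
  · exact mul_pos (by linarith only [h1, R.lb3]) (by norm_num)
  · exact mul_pos (by linarith only [h1, R.uc1, R.lb3]) (by linarith only [R.uc1])
  · exact mul_pos (by linarith only [h1, R.uc2, R.lb3]) (by linarith only [R.uc2])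
  · exact mul_pos (by linarith only [h1, R.uc3, R.lb3]) (by linarith only [R.uc3])
  · exact mul_pos_of_neg_of_neg (by linarith only [h2, R.lc4, R.us]) (by linarith only [R.lc4])
  · exact mul_pos (by linarith only [h1, R.ub1, R.lb3]) (by linarith only [R.ub1])
  · exact mul_pos (by linarith only [h1, R.ub2, R.lb3]) (by linarith only [R.ub2])
  · exact mul_pos (by linarith only [h1]) (by linarith only [R.ub3])
  · exact mul_pos (by linarith only [h1, R.ue1, R.lb3]) (by linarith only [R.ue1])
  · exact mul_pos (by linarith only [h1, R.ue2, R.lb3]) (by linarith only [R.ue2])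
  · exact mul_pos (by linarith only [h1, R.ue3, R.lb3]) (by linarith only [R.ue3])
  · exact mul_pos (by linarith only [h1, R.ue4, R.lb3]) (by linarith only [R.ue4])
  · exact mul_pos_of_neg_of_neg (by linarith only [h2, R.le5, R.us]) (by linarith only [R.le5])

theorem cell12 (R : RD) (x : ℝ) (h1 : R.b3 < x) (h2 : x < R.s) : G x ≤ (6999 / 10) := by
  have hC := logs_le_pos (-71 / 64) (27 / 8) (-8783 / 4096) (379 / 512) (-231461 / 32768) (by norm_num) (by norm_num) (by norm_num) (by norm_num)
    (by norm_num) 33 (by norm_num)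
  refine (region R x (11 / 8) 33 (5510709062374672 / 1477005221763909) (cell12_same R x h1 h2) ?_ ?_).trans (cell12_poly x ?_ ?_)
  · refine le_trans (le_of_eq ?_) (hC.trans (by norm_num))
    norm_num
  · norm_num
  · linarith only [h1, R.lb3]
  · linarith only [h2, R.us]

theorem cell13_poly (x : ℝ) (hu : (433 / 250) ≤ x) (hv : x ≤ (11249 / 5000)) :
    pol x + 80 + (x - (17 / 8)) * (6714328552149742448 / 60109360165982985) ≤ (6999 / 10) := by
  unfold pol
  have hk : 0 ≤ (x - 2) ^ 2 * (133 - (3 * x ^ 2 + 6 * 2 * x + 9 * 2 ^ 2)) := by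
    apply mul_nonneg (sq_nonneg _)
    nlinarith [mul_nonneg (sub_nonneg.mpr hu) (sub_nonneg.mpr hv)]
  linarith [hk, hu, hv]

theorem cell13_same (R : RD) (x : ℝ) (h1 : R.s < x) (h2 : x < R.c4) : Same R x (17 / 8) := by
  constructor
  · exact mul_pos (by linarith only [h1, R.ls, R.ls]) (by linarith only [R.ls])
  · exact mul_pos (by linarith only [h1]) (by linarith only [R.us])
  · exact mul_pos (by linarith only [h1, R.ls]) (by norm_num)
  · exact mul_pos (by linarith only [h1, R.uc1, R.ls]) (by linarith only [R.uc1])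
  · exact mul_pos (by linarith only [h1, R.uc2, R.ls]) (by linarith only [R.uc2])
  · exact mul_pos (by linarith only [h1, R.uc3, R.ls]) (by linarith only [R.uc3])
  · exact mul_pos_of_neg_of_neg (by linarith only [h2]) (by linarith only [R.lc4])
  · exact mul_pos (by linarith only [h1, R.ub1, R.ls]) (by linarith only [R.ub1])
  · exact mul_pos (by linarith only [h1, R.ub2, R.ls]) (by linarith only [R.ub2])
  · exact mul_pos (by linarith only [h1, R.ub3, R.ls]) (by linarith only [R.ub3])
  · exact mul_pos (by linarith only [h1, R.ue1, R.ls]) (by linarith only [R.ue1])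
  · exact mul_pos (by linarith only [h1, R.ue2, R.ls]) (by linarith only [R.ue2])
  · exact mul_pos (by linarith only [h1, R.ue3, R.ls]) (by linarith only [R.ue3])
  · exact mul_pos (by linarith only [h1, R.ue4, R.ls]) (by linarith only [R.ue4])
  · exact mul_pos_of_neg_of_neg (by linarith only [h2, R.le5, R.uc4]) (by linarith only [R.le5])

theorem cell13 (R : RD) (x : ℝ) (h1 : R.s < x) (h2 : x < R.c4) : G x ≤ (6999 / 10) := by
  have hC := logs_le_pos (97 / 64) (33 / 8) (-7487 / 4096) (4537 / 512) (-552815 / 32768) (by norm_num) (by norm_num) (by norm_num) (by norm_num)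
    (by norm_num) 80 (by norm_num)
  refine (region R x (17 / 8) 80 (6714328552149742448 / 60109360165982985) (cell13_same R x h1 h2) ?_ ?_).trans (cell13_poly x ?_ ?_)
  · refine le_trans (le_of_eq ?_) (hC.trans (by norm_num))
    norm_num
  · norm_num
  · linarith only [h1, R.ls]
  · linarith only [h2, R.uc4]

theorem cell14_poly (x : ℝ) (hu : (22497 / 10000) ≤ x) (hv : x ≤ (12873 / 5000)) :
    pol x + 119 + (x - (241 / 100)) * (838492395469657512690380521924723400 / 6031174950296985756362999395500099) ≤ (6999 / 10) := by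
  unfold pol
  have hk : 0 ≤ (x - (5 / 2)) ^ 2 * (133 - (3 * x ^ 2 + 6 * (5 / 2) * x + 9 * (5 / 2) ^ 2)) := by
    apply mul_nonneg (sq_nonneg _)
    nlinarith [mul_nonneg (sub_nonneg.mpr hu) (sub_nonneg.mpr hv)]
  linarith [hk, hu, hv]

theorem cell14_same (R : RD) (x : ℝ) (h1 : R.c4 < x) (h2 : x < R.e5) : Same R x (241 / 100) := by
  constructor
  · exact mul_pos (by linarith only [h1, R.ls, R.lc4]) (by linarith only [R.ls])
  · exact mul_pos (by linarith only [h1, R.us, R.lc4]) (by linarith only [R.us])
  · exact mul_pos (by linarith only [h1, R.lc4]) (by norm_num)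
  · exact mul_pos (by linarith only [h1, R.uc1, R.lc4]) (by linarith only [R.uc1])
  · exact mul_pos (by linarith only [h1, R.uc2, R.lc4]) (by linarith only [R.uc2])
  · exact mul_pos (by linarith only [h1, R.uc3, R.lc4]) (by linarith only [R.uc3])
  · exact mul_pos (by linarith only [h1]) (by linarith only [R.uc4])
  · exact mul_pos (by linarith only [h1, R.ub1, R.lc4]) (by linarith only [R.ub1])
  · exact mul_pos (by linarith only [h1, R.ub2, R.lc4]) (by linarith only [R.ub2])
  · exact mul_pos (by linarith only [h1, R.ub3, R.lc4]) (by linarith only [R.ub3])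
  · exact mul_pos (by linarith only [h1, R.ue1, R.lc4]) (by linarith only [R.ue1])
  · exact mul_pos (by linarith only [h1, R.ue2, R.lc4]) (by linarith only [R.ue2])
  · exact mul_pos (by linarith only [h1, R.ue3, R.lc4]) (by linarith only [R.ue3])
  · exact mul_pos (by linarith only [h1, R.ue4, R.lc4]) (by linarith only [R.ue4])
  · exact mul_pos_of_neg_of_neg (by linarith only [h2]) (by linarith only [R.le5])

theorem cell14 (R : RD) (x : ℝ) (h1 : R.c4 < x) (h2 : x < R.e5) : G x ≤ (6999 / 10) := by
  have hC := logs_le_pos (28081 / 10000) (441 / 100) (347542561 / 100000000) (13985621 / 1000000) (-100198452799 / 10000000000) (by norm_num) (by norm_num) (by norm_num) (by norm_num)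
    (by norm_num) 119 (by norm_num)
  refine (region R x (241 / 100) 119 (838492395469657512690380521924723400 / 6031174950296985756362999395500099) (cell14_same R x h1 h2) ?_ ?_).trans (cell14_poly x ?_ ?_)
  · refine le_trans (le_of_eq ?_) (hC.trans (by norm_num))
    norm_num
  · norm_num
  · linarith only [h1, R.lc4]
  · linarith only [h2, R.ue5]

theorem cell15_poly (x : ℝ) (hu : (5149 / 2000) ≤ x) (hv : x ≤ (33 / 10)) :
    pol x + 172 + (x - (14 / 5)) * (486256843670628265 / 3699528014113932) ≤ (6999 / 10) := by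
  unfold pol
  have hw : 0 ≤ (x - (5149 / 2000)) * ((33 / 10) - x) := mul_nonneg (by linarith) (by linarith)
  have hk : 0 ≤ ((x - (5149 / 2000)) * ((33 / 10) - x)) * (3 * (x ^ 2 + ((5149 / 2000) + (33 / 10)) * x + (5149 / 2000) ^ 2 + (5149 / 2000) * (33 / 10) + (33 / 10) ^ 2) - 133) := by
    apply mul_nonneg hw
    nlinarith [hw]
  nlinarith [hk, hu, hv]

theorem cell15_same (R : RD) (x : ℝ) (h1 : R.e5 < x) (h2 : x ≤ (33 / 10)) : Same R x (14 / 5) := by
  constructor
  · exact mul_pos (by linarith only [h1, R.ls, R.le5]) (by linarith only [R.ls])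
  · exact mul_pos (by linarith only [h1, R.us, R.le5]) (by linarith only [R.us])
  · exact mul_pos (by linarith only [h1, R.le5]) (by norm_num)
  · exact mul_pos (by linarith only [h1, R.uc1, R.le5]) (by linarith only [R.uc1])
  · exact mul_pos (by linarith only [h1, R.uc2, R.le5]) (by linarith only [R.uc2])
  · exact mul_pos (by linarith only [h1, R.uc3, R.le5]) (by linarith only [R.uc3])
  · exact mul_pos (by linarith only [h1, R.uc4, R.le5]) (by linarith only [R.uc4])
  · exact mul_pos (by linarith only [h1, R.ub1, R.le5]) (by linarith only [R.ub1])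
  · exact mul_pos (by linarith only [h1, R.ub2, R.le5]) (by linarith only [R.ub2])
  · exact mul_pos (by linarith only [h1, R.ub3, R.le5]) (by linarith only [R.ub3])
  · exact mul_pos (by linarith only [h1, R.ue1, R.le5]) (by linarith only [R.ue1])
  · exact mul_pos (by linarith only [h1, R.ue2, R.le5]) (by linarith only [R.ue2])
  · exact mul_pos (by linarith only [h1, R.ue3, R.le5]) (by linarith only [R.ue3])
  · exact mul_pos (by linarith only [h1, R.ue4, R.le5]) (by linarith only [R.ue4])
  · exact mul_pos (by linarith only [h1]) (by linarith only [R.ue5])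

theorem cell15 (R : RD) (x : ℝ) (h1 : R.e5 < x) (h2 : x ≤ (33 / 10)) : G x ≤ (6999 / 10) := by
  have hC := logs_le_pos (121 / 25) (24 / 5) (11641 / 625) (2899 / 125) (75499 / 3125) (by norm_num) (by norm_num) (by norm_num) (by norm_num)
    (by norm_num) 172 (by norm_num)
  refine (region R x (14 / 5) 172 (486256843670628265 / 3699528014113932) (cell15_same R x h1 h2) ?_ ?_).trans (cell15_poly x ?_ ?_)
  · refine le_trans (le_of_eq ?_) (hC.trans (by norm_num))
    norm_num
  · norm_num
  · linarith only [h1, R.le5]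
  · exact h2

theorem cell16_poly (x : ℝ) (hu : (33 / 10) ≤ x) (hv : x ≤ 4) :
    pol x + 239 + (x - (7 / 2)) * (108378724779436 / 1431512679597) ≤ (6999 / 10) := by
  unfold pol
  have hw : 0 ≤ (x - (33 / 10)) * (4 - x) := mul_nonneg (by linarith) (by linarith)
  have hk : 0 ≤ ((x - (33 / 10)) * (4 - x)) * (3 * (x ^ 2 + ((33 / 10) + 4) * x + (33 / 10) ^ 2 + (33 / 10) * 4 + 4 ^ 2) - 133) := by
    apply mul_nonneg hw
    nlinarith [hw]
  nlinarith [hk, hu, hv]

theorem cell16_same (R : RD) (x : ℝ) (h1 : (33 / 10) ≤ x) (h2 : x ≤ 4) : Same R x (7 / 2) := by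
  constructor
  · exact mul_pos (by linarith only [h1, R.ls]) (by linarith only [R.ls])
  · exact mul_pos (by linarith only [h1, R.us]) (by linarith only [R.us])
  · exact mul_pos (by linarith only [h1]) (by norm_num)
  · exact mul_pos (by linarith only [h1, R.uc1]) (by linarith only [R.uc1])
  · exact mul_pos (by linarith only [h1, R.uc2]) (by linarith only [R.uc2])
  · exact mul_pos (by linarith only [h1, R.uc3]) (by linarith only [R.uc3])
  · exact mul_pos (by linarith only [h1, R.uc4]) (by linarith only [R.uc4])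
  · exact mul_pos (by linarith only [h1, R.ub1]) (by linarith only [R.ub1])
  · exact mul_pos (by linarith only [h1, R.ub2]) (by linarith only [R.ub2])
  · exact mul_pos (by linarith only [h1, R.ub3]) (by linarith only [R.ub3])
  · exact mul_pos (by linarith only [h1, R.ue1]) (by linarith only [R.ue1])
  · exact mul_pos (by linarith only [h1, R.ue2]) (by linarith only [R.ue2])
  · exact mul_pos (by linarith only [h1, R.ue3]) (by linarith only [R.ue3])
  · exact mul_pos (by linarith only [h1, R.ue4]) (by linarith only [R.ue4])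
  · exact mul_pos (by linarith only [h1, R.ue5]) (by linarith only [R.ue5])

theorem cell16 (R : RD) (x : ℝ) (h1 : (33 / 10) ≤ x) (h2 : x ≤ 4) : G x ≤ (6999 / 10) := by
  have hC := logs_le_pos (37 / 4) (11 / 2) (1281 / 16) (377 / 8) (7283 / 32) (by norm_num) (by norm_num) (by norm_num) (by norm_num)
    (by norm_num) 239 (by norm_num)
  refine (region R x (7 / 2) 239 (108378724779436 / 1431512679597) (cell16_same R x h1 h2) ?_ ?_).trans (cell16_poly x ?_ ?_)
  · refine le_trans (le_of_eq ?_) (hC.trans (by norm_num))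
    norm_num
  · norm_num
  · exact h1
  · exact h2

end Pool.Agent.R834.Med
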