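import Mathlib
import Pool.Agent.R834.Med.Cells

/-!
The one-variable inequality, and the nonnegativity of the `D`-sums over the roots of the five
polynomials.
-/

namespace Pool.Agent.R834.Med
open Polynomial

/-- The target function. -/
noncomputable def T (x : ℝ) : ℝ := if x < -√3 then -700 else 6999 / 10

/-- The five polynomials. -/
def Q : Set ℤ[X] := {q1, q2, q3, q4, q5}

theorem Q_monic : ∀ q ∈ Q, q.Monic := by
  intro q hq
  simp only [Q, Set.mem_insert_iff, Set.mem_singleton_iff] at hq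
  rcases hq with rfl | rfl | rfl | rfl | rfl
  exacts [monic1, monic2, monic3, monic4, monic5]

theorem Q_irr : ∀ q ∈ Q, Irreducible q := by
  intro q hq
  simp only [Q, Set.mem_insert_iff, Set.mem_singleton_iff] at hq
  rcases hq with rfl | rfl | rfl | rfl | rfl
  exacts [irr1, irr2, irr3, irr4, irr5]

theorem T_left (R : RD) {x : ℝ} (h : x < -R.s) : T x = -700 := by
  rw [T, if_pos]; rw [← R.hs]; exact h

theorem T_right (R : RD) {x : ℝ} (h : -R.s ≤ x) : T x = 6999 / 10 := by
  rw [T, if_neg]; rw [← R.hs]; exact not_lt.mpr h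

theorem ne_root {q : ℤ[X]} (_hq : q.Monic) {l : List ℝ}
    (hl : (toR q).roots = (l : Multiset ℝ)) {x : ℝ} (hx : (toR q).eval x ≠ 0) :
    ∀ r ∈ l, x ≠ r := by
  rintro r hr rfl
  have : x ∈ (toR q).roots := by rw [hl]; simpa using hr
  exact hx (mem_roots'.mp this).2

/-- The one-variable inequality off the roots of the five polynomials. -/
theorem G_le_T (R : RD) (x : ℝ) (hx4 : |x| ≤ 4) (hx : ∀ q ∈ Q, (toR q).eval x ≠ 0) :
    G x ≤ T x := by
  have hx1 := hx q1 (by simp [Q])
  have hx2 := hx q2 (by simp [Q])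
  have hx3 := hx q3 (by simp [Q])
  have hx4' := hx q4 (by simp [Q])
  have hx5 := hx q5 (by simp [Q])
  have n1 := ne_root monic1 R.r1 hx1
  have n2 := ne_root monic2 R.r2 hx2
  have n3 := ne_root monic3 R.r3 hx3
  have n4 := ne_root monic4 R.r4 hx4'
  have n5 := ne_root monic5 R.r5 hx5
  have na3 : x ≠ -2 := n2 _ (by simp)
  have na1 : x ≠ -R.s := n1 _ (by simp)
  have na2 : x ≠ R.s := n1 _ (by simp)
  have nc1 : x ≠ R.c1 := n3 _ (by simp)
  have nc2 : x ≠ R.c2 := n3 _ (by simp)
  have nc3 : x ≠ R.c3 := n3 _ (by simp)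
  have nc4 : x ≠ R.c4 := n3 _ (by simp)
  have nb1 : x ≠ R.b1 := n4 _ (by simp)
  have nb2 : x ≠ R.b2 := n4 _ (by simp)
  have nb3 : x ≠ R.b3 := n4 _ (by simp)
  have ne1 : x ≠ R.e1 := n5 _ (by simp)
  have ne2 : x ≠ R.e2 := n5 _ (by simp)
  have ne3 : x ≠ R.e3 := n5 _ (by simp)
  have ne4 : x ≠ R.e4 := n5 _ (by simp)
  have ne5 : x ≠ R.e5 := n5 _ (by simp)
  have hab := abs_le.mp hx4
  have ls := R.ls
  have us := R.us
  rcases lt_or_gt_of_ne na1 with hL | hL
  · rw [T_left R hL]
    rcases lt_or_gt_of_ne na3 with h | h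
    · exact cell0 R x hab.1 h
    rcases lt_or_gt_of_ne ne1 with h' | h'
    · exact cell1 R x h h'
    rcases lt_or_gt_of_ne nc1 with h | h
    · exact cell2 R x h' h
    rcases lt_or_gt_of_ne nb1 with h' | h'
    · exact cell3 R x h h'
    rcases lt_or_gt_of_ne ne2 with h | h
    · exact cell4 R x h' h
    · exact cell5 R x h hL
  · rw [T_right R (le_of_lt hL)]
    rcases lt_or_gt_of_ne nc2 with h | h
    · exact cell6 R x hL h
    rcases lt_or_gt_of_ne nb2 with h' | h'
    · exact cell7 R x h h'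
    rcases lt_or_gt_of_ne ne3 with h | h
    · exact cell8 R x h' h
    rcases lt_or_gt_of_ne ne4 with h' | h'
    · exact cell9 R x h h'
    rcases lt_or_gt_of_ne nc3 with h | h
    · exact cell10 R x h' h
    rcases lt_or_gt_of_ne nb3 with h' | h'
    · exact cell11 R x h h'
    rcases lt_or_gt_of_ne na2 with h | h
    · exact cell12 R x h' h
    rcases lt_or_gt_of_ne nc4 with h' | h'
    · exact cell13 R x h h'
    rcases lt_or_gt_of_ne ne5 with h | h
    · exact cell14 R x h' h
    rcases le_total x (33 / 10) with h' | h'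
    · exact cell15 R x h h'
    · exact cell16 R x h' hab.2

theorem sum_G_eq (s : Multiset ℝ)
    (h1 : (s.map (fun r => Real.log ((toR q1).eval r))).sum = 0)
    (h2 : (s.map (fun r => Real.log ((toR q2).eval r))).sum = 0)
    (h3 : (s.map (fun r => Real.log ((toR q3).eval r))).sum = 0)
    (h4 : (s.map (fun r => Real.log ((toR q4).eval r))).sum = 0)
    (h5 : (s.map (fun r => Real.log ((toR q5).eval r))).sum = 0) :
    (s.map G).sum = (s.map pol).sum := by
  have e : G = fun r => pol r + 52 * Real.log ((toR q1).eval r)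
      + 10 * Real.log ((toR q2).eval r) + 8 * Real.log ((toR q3).eval r)
      + 10 * Real.log ((toR q4).eval r) + 6 * Real.log ((toR q5).eval r) := by
    funext r
    rw [ev1, ev2, ev3, ev4, ev5]; rfl
  rw [e]
  simp only [Multiset.sum_map_add, Multiset.sum_map_mul_left, h1, h2, h3, h4, h5, mul_zero,
    add_zero]

theorem logsum_self (q : ℤ[X]) :
    ((toR q).roots.map (fun r => Real.log ((toR q).eval r))).sum = 0 := by
  apply Multiset.sum_eq_zero
  intro x hx
  obtain ⟨r, hr, rfl⟩ := Multiset.mem_map.mp hx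
  rw [show (toR q).eval r = 0 from (mem_roots'.mp hr).2, Real.log_zero]

theorem pol_le {c v a1 a2 : ℝ} (h : c ≤ v) (h1 : a1 ≤ c ^ 2) (h2 : c ^ 2 ≤ a2) :
    pol c ≤ 3 * a2 ^ 2 - 133 * a1 + 333 * v + 448 := by
  unfold pol
  nlinarith [pow_le_pow_left₀ (sq_nonneg c) h2 2]

theorem sq_bd_neg {c u v : ℝ} (h1 : u ≤ c) (h2 : c ≤ v) (hv : v ≤ 0) :
    v ^ 2 ≤ c ^ 2 ∧ c ^ 2 ≤ u ^ 2 := by
  constructor <;> nlinarith

theorem sq_bd_pos {c u v : ℝ} (h1 : u ≤ c) (h2 : c ≤ v) (hu : 0 ≤ u) :
    u ^ 2 ≤ c ^ 2 ∧ c ^ 2 ≤ v ^ 2 := by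
  constructor <;> nlinarith

theorem pol_neg {c u v : ℝ} (h1 : u < c) (h2 : c < v) (hv : v ≤ 0) :
    pol c ≤ 3 * (u ^ 2) ^ 2 - 133 * v ^ 2 + 333 * v + 448 :=
  pol_le h2.le (sq_bd_neg h1.le h2.le hv).1 (sq_bd_neg h1.le h2.le hv).2

theorem pol_pos {c u v : ℝ} (h1 : u < c) (h2 : c < v) (hu : 0 ≤ u) :
    pol c ≤ 3 * (v ^ 2) ^ 2 - 133 * u ^ 2 + 333 * v + 448 :=
  pol_le h2.le (sq_bd_pos h1.le h2.le hu).1 (sq_bd_pos h1.le h2.le hu).2

/-- The defect. -/
noncomputable def Df (x : ℝ) : ℝ := T x - G x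

theorem Df_sum (s : Multiset ℝ) : (s.map Df).sum = (s.map T).sum - (s.map G).sum := by
  have : Df = fun x => T x - G x := rfl
  rw [this, Multiset.sum_map_sub]

theorem D1 (R : RD) : 0 ≤ ((toR q1).roots.map Df).sum := by
  rw [Df_sum, sum_G_eq _ (logsum_self q1) (logsum_eq_zero _ _ monic1 R.s1 cop12)
    (logsum_eq_zero _ _ monic1 R.s1 cop13) (logsum_eq_zero _ _ monic1 R.s1 cop14)
    (logsum_eq_zero _ _ monic1 R.s1 cop15), R.r1]
  have ls := R.ls
  have us := R.us
  have p1 := pol_neg (c := -R.s) (u := -1.7321) (v := -1.7320) (by linarith) (by linarith)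
    (by norm_num)
  have p2 := pol_pos ls us (by norm_num)
  simp only [Multiset.map_coe, Multiset.sum_coe, List.map_cons, List.map_nil, List.sum_cons,
    List.sum_nil]
  rw [T_right R (le_refl _), T_right R (by linarith)]
  norm_num at p1 p2
  linarith

theorem D2 (R : RD) : 0 ≤ ((toR q2).roots.map Df).sum := by
  rw [Df_sum, sum_G_eq _ (logsum_eq_zero _ _ monic2 R.s2 cop12.symm) (logsum_self q2)
    (logsum_eq_zero _ _ monic2 R.s2 cop23) (logsum_eq_zero _ _ monic2 R.s2 cop24)
    (logsum_eq_zero _ _ monic2 R.s2 cop25), R.r2]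
  have ls := R.ls
  have us := R.us
  simp only [Multiset.map_coe, Multiset.sum_coe, List.map_cons, List.map_nil, List.sum_cons,
    List.sum_nil]
  rw [T_left R (by linarith), pol]
  norm_num

theorem D3 (R : RD) : 0 ≤ ((toR q3).roots.map Df).sum := by
  rw [Df_sum, sum_G_eq _ (logsum_eq_zero _ _ monic3 R.s3 cop13.symm)
    (logsum_eq_zero _ _ monic3 R.s3 cop23.symm) (logsum_self q3)
    (logsum_eq_zero _ _ monic3 R.s3 cop34) (logsum_eq_zero _ _ monic3 R.s3 cop35), R.r3]
  have ls := R.ls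
  have us := R.us
  have l1 := R.lc1
  have u1 := R.uc1
  have l2 := R.lc2
  have u2 := R.uc2
  have l3 := R.lc3
  have u3 := R.uc3
  have l4 := R.lc4
  have u4 := R.uc4
  have p1 := pol_neg l1 u1 (by norm_num)
  have p2 := pol_neg l2 u2 (by norm_num)
  have p3 := pol_pos l3 u3 (by norm_num)
  have p4 := pol_pos l4 u4 (by norm_num)
  simp only [Multiset.map_coe, Multiset.sum_coe, List.map_cons, List.map_nil, List.sum_cons,
    List.sum_nil]
  rw [T_left R (by linarith), T_right R (by linarith), T_right R (by linarith),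
    T_right R (by linarith)]
  norm_num at p1 p2 p3 p4
  linarith

theorem D4 (R : RD) : 0 ≤ ((toR q4).roots.map Df).sum := by
  rw [Df_sum, sum_G_eq _ (logsum_eq_zero _ _ monic4 R.s4 cop14.symm)
    (logsum_eq_zero _ _ monic4 R.s4 cop24.symm) (logsum_eq_zero _ _ monic4 R.s4 cop34.symm)
    (logsum_self q4) (logsum_eq_zero _ _ monic4 R.s4 cop45), R.r4]
  have ls := R.ls
  have us := R.us
  have l1 := R.lb1
  have u1 := R.ub1
  have l2 := R.lb2
  have u2 := R.ub2
  have l3 := R.lb3
  have u3 := R.ub3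
  have p1 := pol_neg l1 u1 (by norm_num)
  have p2 := pol_neg l2 u2 (by norm_num)
  have p3 := pol_pos l3 u3 (by norm_num)
  simp only [Multiset.map_coe, Multiset.sum_coe, List.map_cons, List.map_nil, List.sum_cons,
    List.sum_nil]
  rw [T_left R (by linarith), T_right R (by linarith), T_right R (by linarith)]
  norm_num at p1 p2 p3
  linarith

theorem D5 (R : RD) : 0 ≤ ((toR q5).roots.map Df).sum := by
  rw [Df_sum, sum_G_eq _ (logsum_eq_zero _ _ monic5 R.s5 cop15.symm)
    (logsum_eq_zero _ _ monic5 R.s5 cop25.symm) (logsum_eq_zero _ _ monic5 R.s5 cop35.symm)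
    (logsum_eq_zero _ _ monic5 R.s5 cop45.symm) (logsum_self q5), R.r5]
  have ls := R.ls
  have us := R.us
  have l1 := R.le1
  have u1 := R.ue1
  have l2 := R.le2
  have u2 := R.ue2
  have l3 := R.le3
  have u3 := R.ue3
  have l4 := R.le4
  have u4 := R.ue4
  have l5 := R.le5
  have u5 := R.ue5
  have p1 := pol_neg l1 u1 (by norm_num)
  have p2 := pol_neg l2 u2 (by norm_num)
  have p3 := pol_pos l3 u3 (by norm_num)
  have p4 := pol_pos l4 u4 (by norm_num)
  have p5 := pol_pos l5 u5 (by norm_num)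
  simp only [Multiset.map_coe, Multiset.sum_coe, List.map_cons, List.map_nil, List.sum_cons,
    List.sum_nil]
  rw [T_left R (by linarith), T_left R (by linarith), T_right R (by linarith),
    T_right R (by linarith), T_right R (by linarith)]
  norm_num at p1 p2 p3 p4 p5
  linarith

/-- **The key inequality**: for a totally real monic integer polynomial with all its roots in
`[-4,4]`, the sum of `G` over the roots is at most the sum of `T`. -/
theorem sum_G_le_sum_T (P : ℤ[X]) (hP : P.Monic) (hs : (toR P).Splits)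
    (h4 : ∀ r ∈ (toR P).roots, |r| ≤ 4) :
    ((toR P).roots.map G).sum ≤ ((toR P).roots.map T).sum := by
  obtain ⟨R⟩ := exists_RD
  have h := dsum_nonneg Df Q Q_monic Q_irr (by
    intro q hq
    simp only [Q, Set.mem_insert_iff, Set.mem_singleton_iff] at hq
    rcases hq with rfl | rfl | rfl | rfl | rfl
    exacts [D1 R, D2 R, D3 R, D4 R, D5 R])
    (fun x hx hq => sub_nonneg.mpr (G_le_T R x hx hq)) P.natDegree P rfl hP hs h4
  rw [Df_sum] at h
  linarith

/-- The logarithmic sums are nonnegative, so the sum of `pol` is at most the sum of `T`. -/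
theorem sum_pol_le_sum_T (P : ℤ[X]) (hP : P.Monic) (hs : (toR P).Splits)
    (h4 : ∀ r ∈ (toR P).roots, |r| ≤ 4) :
    ((toR P).roots.map pol).sum ≤ ((toR P).roots.map T).sum := by
  refine le_trans ?_ (sum_G_le_sum_T P hP hs h4)
  have e : G = fun r => pol r + 52 * Real.log ((toR q1).eval r)
      + 10 * Real.log ((toR q2).eval r) + 8 * Real.log ((toR q3).eval r)
      + 10 * Real.log ((toR q4).eval r) + 6 * Real.log ((toR q5).eval r) := by
    funext r
    rw [ev1, ev2, ev3, ev4, ev5]; rfl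
  rw [e]
  simp only [Multiset.sum_map_add, Multiset.sum_map_mul_left]
  have h1 := logsum_nonneg q1 monic1 irr1 _ P rfl hP hs
  have h2 := logsum_nonneg q2 monic2 irr2 _ P rfl hP hs
  have h3 := logsum_nonneg q3 monic3 irr3 _ P rfl hP hs
  have h4 := logsum_nonneg q4 monic4 irr4 _ P rfl hP hs
  have h5 := logsum_nonneg q5 monic5 irr5 _ P rfl hP hs
  linarith

end Pool.Agent.R834.Med
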