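import Mathlib
import Pool.Agent.R834.Med.OneVar

/-!
Application to the adjacency matrix of a graph of maximum degree at most `4`.
-/

namespace Pool.Agent.R834.Med
open Polynomial Matrix

theorem trace_pow_eq {n : Type*} [Fintype n] [DecidableEq n] {A : Matrix n n ℝ}
    (hA : A.IsHermitian) (k : ℕ) : (A ^ k).trace = ∑ i, hA.eigenvalues i ^ k := by
  conv_lhs => rw [hA.spectral_theorem, ← map_pow, Unitary.conjStarAlgAut_apply,
    Matrix.diagonal_pow, Matrix.trace_mul_comm, ← mul_assoc]
  simp [Matrix.trace]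

variable {V : Type*} [Fintype V] [DecidableEq V] (G : SimpleGraph V) [DecidableRel G.Adj]

omit [DecidableEq V] in
theorem common_nat (u v : V) :
    ((G.adjMatrix ℝ) * (G.adjMatrix ℝ)) u v =
      ((Finset.univ.filter (fun w => G.Adj u w ∧ G.Adj w v)).card : ℝ) := by
  rw [Matrix.mul_apply]
  simp only [SimpleGraph.adjMatrix_apply]
  rw [Finset.card_filter]
  push_cast
  apply Finset.sum_congr rfl
  intro w _
  by_cases h1 : G.Adj u w <;> by_cases h2 : G.Adj w v <;> simp [h1, h2]

theorem sq_ge_of_nat (m : ℕ) : (m : ℝ) ≤ (m : ℝ) * m := by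
  exact_mod_cast Nat.le_mul_self m

omit [DecidableEq V] in
theorem row_sum (u : V) : ∑ v, G.adjMatrix ℝ u v = G.degree u := by
  have := G.adjMatrix_mulVec_const_apply (α := ℝ) (a := 1) (v := u)
  simpa [Matrix.mulVec, dotProduct] using this

theorem sum_all : ∑ u, ∑ v, ((G.adjMatrix ℝ) * (G.adjMatrix ℝ)) u v =
    ∑ w, (G.degree w : ℝ) * G.degree w := by
  simp only [Matrix.mul_apply]
  have h : ∀ u, ∑ v, ∑ w, G.adjMatrix ℝ u w * G.adjMatrix ℝ w v =
      ∑ w, G.adjMatrix ℝ u w * G.degree w := by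
    intro u
    rw [Finset.sum_comm]
    apply Finset.sum_congr rfl
    intro w _
    rw [← Finset.mul_sum, row_sum]
  rw [Finset.sum_congr rfl (fun u _ => h u), Finset.sum_comm]
  apply Finset.sum_congr rfl
  intro w _
  rw [← Finset.sum_mul]
  congr 1
  rw [← row_sum G w]
  apply Finset.sum_congr rfl
  intro u _
  rw [SimpleGraph.adjMatrix_apply, SimpleGraph.adjMatrix_apply]
  simp [G.adj_comm]

theorem trace_two : ((G.adjMatrix ℝ) ^ 2).trace = ∑ u, (G.degree u : ℝ) := by
  rw [pow_two, Matrix.trace]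
  apply Finset.sum_congr rfl
  intro u _
  rw [Matrix.diag_apply, SimpleGraph.adjMatrix_mul_self_apply_self]

theorem trace_four : ∑ u, (2 * (G.degree u : ℝ) ^ 2 - G.degree u) ≤
    ((G.adjMatrix ℝ) ^ 4).trace := by
  set B := (G.adjMatrix ℝ) * (G.adjMatrix ℝ) with hB
  have h4 : (G.adjMatrix ℝ) ^ 4 = B * B := by
    rw [hB]; noncomm_ring
  have hsymm : ∀ u v, B v u = B u v := by
    intro u v
    have : Bᵀ = B := by
      rw [hB, Matrix.transpose_mul, SimpleGraph.transpose_adjMatrix]
    calc B v u = Bᵀ u v := rfl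
      _ = B u v := by rw [this]
  have hdiag : ∀ u, B u u = G.degree u := fun u => by
    rw [hB, SimpleGraph.adjMatrix_mul_self_apply_self]
  have key : ∀ u v, B u v + (if v = u then ((G.degree u : ℝ) * G.degree u - G.degree u) else 0)
      ≤ B u v * B u v := by
    intro u v
    split_ifs with h
    · subst h; rw [hdiag]; linarith
    · rw [add_zero, hB, common_nat]
      exact sq_ge_of_nat _
  rw [h4, Matrix.trace]
  have h5 : ∀ u, (B * B).diag u = ∑ v, B u v * B u v := by
    intro u
    rw [Matrix.diag_apply, Matrix.mul_apply]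
    apply Finset.sum_congr rfl
    intro v _
    rw [hsymm u v]
  rw [Finset.sum_congr rfl (fun u _ => h5 u)]
  have h6 : ∑ u, ∑ v, (B u v +
      (if v = u then ((G.degree u : ℝ) * G.degree u - G.degree u) else 0)) =
      ∑ u, (2 * (G.degree u : ℝ) ^ 2 - G.degree u) := by
    simp only [Finset.sum_add_distrib, Finset.sum_ite_eq', Finset.mem_univ, if_true]
    rw [sum_all, ← Finset.sum_add_distrib]
    apply Finset.sum_congr rfl
    intro u _
    ring
  rw [← h6]
  exact Finset.sum_le_sum (fun u _ => Finset.sum_le_sum (fun v _ => key u v))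

theorem sum_pol_nonneg (h4 : ∀ v, G.degree v ≤ 4) :
    0 ≤ ∑ i, pol ((G.isHermitian_adjMatrix ℝ).eigenvalues i) := by
  have e : ∑ i, pol ((G.isHermitian_adjMatrix ℝ).eigenvalues i) =
      3 * ((G.adjMatrix ℝ) ^ 4).trace - 133 * ((G.adjMatrix ℝ) ^ 2).trace
        + 333 * ((G.adjMatrix ℝ) ^ 1).trace + 448 * Fintype.card V := by
    rw [trace_pow_eq (G.isHermitian_adjMatrix ℝ), trace_pow_eq (G.isHermitian_adjMatrix ℝ),
      trace_pow_eq (G.isHermitian_adjMatrix ℝ)]
    simp only [pol, Finset.sum_add_distrib, Finset.sum_sub_distrib, ← Finset.mul_sum,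
      Finset.sum_const, Finset.card_univ, nsmul_eq_mul, pow_one]
    ring
  rw [e, pow_one, SimpleGraph.trace_adjMatrix, trace_two]
  have h := trace_four G
  have h2 : 0 ≤ ∑ u, (3 * (2 * (G.degree u : ℝ) ^ 2 - G.degree u) - 133 * G.degree u
      + 448) := by
    apply Finset.sum_nonneg
    intro u _
    have h3 : (G.degree u : ℝ) ≤ 4 := by exact_mod_cast h4 u
    nlinarith [h3]
  rw [Finset.sum_add_distrib, Finset.sum_sub_distrib, ← Finset.mul_sum, ← Finset.mul_sum,
    Finset.sum_const, Finset.card_univ, nsmul_eq_mul] at h2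
  linarith

theorem abs_eigenvalue_le (h4 : ∀ v, G.degree v ≤ 4) (i : V) :
    |(G.isHermitian_adjMatrix ℝ).eigenvalues i| ≤ 4 := by
  have hmem := (G.isHermitian_adjMatrix ℝ).eigenvalues_mem_spectrum_real i
  rw [← Matrix.spectrum_toLin'] at hmem
  have hev := Module.End.hasEigenvalue_iff_mem_spectrum.mpr hmem
  obtain ⟨k, hk⟩ := eigenvalue_mem_ball hev
  rw [Metric.mem_closedBall, SimpleGraph.adjMatrix_apply, if_neg (G.irrefl), dist_zero_right,
    Real.norm_eq_abs] at hk
  refine hk.trans ?_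
  have h1 : ∑ j ∈ Finset.univ.erase k, ‖G.adjMatrix ℝ k j‖ ≤ ∑ j, G.adjMatrix ℝ k j := by
    have e : ∀ j, ‖G.adjMatrix ℝ k j‖ = G.adjMatrix ℝ k j := by
      intro j
      rw [SimpleGraph.adjMatrix_apply]
      split_ifs <;> simp
    rw [Finset.sum_congr rfl (fun j _ => e j)]
    apply Finset.sum_le_sum_of_subset_of_nonneg (Finset.erase_subset _ _)
    intro j _ _
    rw [SimpleGraph.adjMatrix_apply]
    split_ifs <;> norm_num
  refine h1.trans ?_
  rw [row_sum]
  exact_mod_cast h4 k

/-- The sum of the target function over the spectrum is nonnegative. -/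
theorem sum_T_nonneg (h4 : ∀ v, G.degree v ≤ 4) :
    0 ≤ ((G.adjMatrix ℝ).charpoly.roots.map T).sum := by
  have hP : (G.adjMatrix ℤ).charpoly.Monic := Matrix.charpoly_monic _
  have hmap : toR (G.adjMatrix ℤ).charpoly = (G.adjMatrix ℝ).charpoly := by
    rw [toR, ← Matrix.charpoly_map]
    congr 1
    ext u v
    simp [SimpleGraph.adjMatrix_apply]
  have hs : (toR (G.adjMatrix ℤ).charpoly).Splits := by
    rw [hmap]; exact (G.isHermitian_adjMatrix ℝ).splits_charpoly
  have hroots : (G.adjMatrix ℝ).charpoly.roots =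
      Finset.univ.val.map (G.isHermitian_adjMatrix ℝ).eigenvalues := by
    rw [(G.isHermitian_adjMatrix ℝ).roots_charpoly_eq_eigenvalues]
    rfl
  have h := sum_pol_le_sum_T (G.adjMatrix ℤ).charpoly hP hs (by
    rw [hmap, hroots]
    intro r hr
    obtain ⟨i, _, rfl⟩ := Multiset.mem_map.mp hr
    exact abs_eigenvalue_le G h4 i)
  rw [hmap] at h
  refine le_trans ?_ h
  rw [hroots, Multiset.map_map]
  exact sum_pol_nonneg G h4

theorem count_contra (n : ℕ) (lam : Fin n → ℝ) (hanti : Antitone lam) (i : Fin n)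
    (hi : (i : ℕ) ≤ n / 2) (hlt : lam i < -√3) (h' : 0 ≤ ∑ j, T (lam j)) : False := by
  have hpos : 0 < n := lt_of_le_of_lt (Nat.zero_le _) i.isLt
  have hle : ∀ j : Fin n, T (lam j) ≤ if (j : ℕ) < n / 2 then (6999 / 10 : ℝ) else -700 := by
    intro j
    split_ifs with hj
    · unfold T; split_ifs <;> norm_num
    · have hij : i ≤ j := by
        rw [Fin.le_def]; omega
      have : lam j < -√3 := lt_of_le_of_lt (hanti hij) hlt
      rw [T, if_pos this]
  have hsum := Finset.sum_le_sum (fun j (_ : j ∈ Finset.univ) => hle j)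
  have hval : ∑ j : Fin n, (if (j : ℕ) < n / 2 then (6999 / 10 : ℝ) else -700) =
      (n / 2 : ℕ) * (6999 / 10 : ℝ) + ((n - n / 2 : ℕ) : ℝ) * (-700) := by
    rw [Fin.sum_univ_eq_sum_range (fun j => if j < n / 2 then (6999 / 10 : ℝ) else -700) n,
      Finset.sum_ite, Finset.sum_const, Finset.sum_const, nsmul_eq_mul, nsmul_eq_mul]
    congr 3
    · rw [show (Finset.range n).filter (fun j => j < n / 2) = Finset.range (n / 2) by
        ext j; simp only [Finset.mem_filter, Finset.mem_range]; omega, Finset.card_range]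
    · rw [show (Finset.range n).filter (fun j => ¬ j < n / 2) = Finset.Ico (n / 2) n by
        ext j; simp only [Finset.mem_filter, Finset.mem_range, Finset.mem_Ico]; omega,
        Nat.card_Ico]
  rw [hval] at hsum
  have h1 : ((n / 2 : ℕ) : ℝ) ≤ ((n - n / 2 : ℕ) : ℝ) := by
    exact_mod_cast (by omega : n / 2 ≤ n - n / 2)
  have h2 : (1 : ℝ) ≤ ((n - n / 2 : ℕ) : ℝ) := by
    exact_mod_cast (by omega : 1 ≤ n - n / 2)
  have h3 : (0 : ℝ) ≤ ((n / 2 : ℕ) : ℝ) := Nat.cast_nonneg _
  linarith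

/-- The lower median eigenvalue of a graph of maximum degree at most `4` is at least `-√3`. -/
theorem median_ge (h4 : ∀ v, G.degree v ≤ 4) (lam : Fin (Fintype.card V) → ℝ)
    (hanti : Antitone lam)
    (hchar : (G.adjMatrix ℝ).charpoly = ∏ i, (X - C (lam i)))
    (i : Fin (Fintype.card V)) (hi : (i : ℕ) ≤ Fintype.card V / 2) : -√3 ≤ lam i := by
  by_contra hlt
  rw [not_le] at hlt
  have hroots : (G.adjMatrix ℝ).charpoly.roots = Finset.univ.val.map lam := by
    rw [hchar, Polynomial.roots_prod]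
    · simp
    · simp [Finset.prod_ne_zero_iff, Polynomial.X_sub_C_ne_zero]
  have h := sum_T_nonneg G h4
  rw [hroots, Multiset.map_map] at h
  exact count_contra _ lam hanti i hi hlt h

/-- The eigenvalues can be listed in nonincreasing order. -/
theorem exists_listing : ∃ lam : Fin (Fintype.card V) → ℝ, Antitone lam ∧
    (G.adjMatrix ℝ).charpoly = ∏ i, (X - C (lam i)) := by
  have hA := G.isHermitian_adjMatrix ℝ
  refine ⟨hA.eigenvalues₀, hA.eigenvalues₀_antitone, ?_⟩
  have h1 := hA.splits_charpoly.eq_prod_roots_of_monic (Matrix.charpoly_monic _)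
  rw [hA.roots_charpoly_eq_eigenvalues₀, Multiset.map_map] at h1
  rw [h1]
  rfl

end Pool.Agent.R834.Med
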